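import Pool.Agent.H921R2.TatePole.Radical

set_option autoImplicit false
set_option linter.unusedSectionVars false

open Complex Filter Topology NumberField IsDedekindDomain Polynomial

namespace Pool.Agent.H921R2.TatePole

/-- indicator of `p ≡ 1 mod q` -/
noncomputable def e1 (q : ℕ) (p : Nat.Primes) : ℝ := if ((p : ℕ) : ZMod q) = 1 then 1 else 0

lemma e1_abs (q : ℕ) (p : Nat.Primes) : |e1 q p| ≤ 1 := by
  unfold e1; split_ifs <;> simp

lemma Bdd.sum {ι : Type*} (s : Finset ι) {f : ι → ℝ → ℝ} (h : ∀ i ∈ s, Bdd (f i)) :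
    Bdd (fun x => ∑ i ∈ s, f i x) := by
  classical
  induction s using Finset.induction_on with
  | empty => exact ⟨0, by simp⟩
  | insert a s ha ih =>
    have h1 := (h a (Finset.mem_insert_self a s)).add
      (ih fun i hi => h i (Finset.mem_insert_of_mem hi))
    refine h1.congr fun x _ => ?_
    rw [Finset.sum_insert ha]

/-- Dirichlet's theorem for the class `1 mod q`, `q` prime. -/
lemma class_one_bdd {q : ℕ} (hq : q.Prime) :
    Bdd (fun x => ((q : ℝ) - 1) * ∑' p : Nat.Primes, e1 q p * w x p - Lam x) := by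
  classical
  have : NeZero q := ⟨hq.ne_zero⟩
  have hne : ∀ χ : DirichletCharacter ℂ q, χ ≠ 1 →
      Bdd (fun x => ∑' p : Nat.Primes, (χ ((p : ℕ) : ZMod q)).re * w x p) := by
    intro χ hχ
    refine (dirichlet_bdd χ 0 (Or.inl hχ)).congr fun x hx => ?_
    have h1 := tsum_re_tw (a := fun _ => (1 : ℂ)) (T := 1) (fun p => by simp) χ 0 hx
    simp only [mul_one, one_mul] at h1
    rw [h1]
    refine tsum_congr fun p => ?_
    unfold tw
    simp
  have hone : Bdd (fun x => ∑' p : Nat.Primes,
      ((1 : DirichletCharacter ℂ q) ((p : ℕ) : ZMod q)).re * w x p - W x) := by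
    have hb : Bdd (fun x => ∑' p : Nat.Primes,
        (((1 : DirichletCharacter ℂ q) ((p : ℕ) : ZMod q)).re - 1) * w x p) := by
      refine finite_support_bdd (C := 1) (M := q) (fun p => ?_) hq.ne_zero fun p hp => ?_
      · by_cases hu : IsUnit (((p : ℕ) : ZMod q))
        · rw [MulChar.one_apply hu]; simp
        · rw [MulChar.map_nonunit _ hu]; simp
      · have hu : IsUnit (((p : ℕ) : ZMod q)) := by
          rw [ZMod.isUnit_iff_coprime]
          exact (Nat.Prime.coprime_iff_not_dvd p.prop).mpr hp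
        rw [MulChar.one_apply hu]; simp
    refine hb.congr fun x hx => ?_
    have hs : Summable (fun p : Nat.Primes =>
        ((1 : DirichletCharacter ℂ q) ((p : ℕ) : ZMod q)).re * w x p) :=
      bddmul_summable hx (C := 1) fun p => (Complex.abs_re_le_norm _).trans
        (DirichletCharacter.norm_le_one _ _)
    have : W x = ∑' p, w x p := rfl
    rw [this, ← Summable.tsum_sub hs (w_summable hx)]
    exact tsum_congr fun p => by ring
  have hall : Bdd (fun x => ∑ χ : DirichletCharacter ℂ q,
      (∑' p : Nat.Primes, (χ ((p : ℕ) : ZMod q)).re * w x p) - W x) := by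
    have h2 := (Bdd.sum (Finset.univ.erase (1 : DirichletCharacter ℂ q))
      (f := fun χ x => ∑' p : Nat.Primes, (χ ((p : ℕ) : ZMod q)).re * w x p)
      (fun χ hχ => hne χ (Finset.ne_of_mem_erase hχ))).add hone
    refine h2.congr fun x _ => ?_
    rw [← Finset.sum_erase_add _ _ (Finset.mem_univ (1 : DirichletCharacter ℂ q))]
    ring
  refine (hall.add W_sub_Lam_bdd).congr fun x hx => ?_
  have hsum : ∑ χ : DirichletCharacter ℂ q,
      (∑' p : Nat.Primes, (χ ((p : ℕ) : ZMod q)).re * w x p) =
      ((q : ℝ) - 1) * ∑' p : Nat.Primes, e1 q p * w x p := by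
    rw [← Summable.tsum_finsetSum (fun χ _ => bddmul_summable hx (C := 1) fun p =>
      (Complex.abs_re_le_norm _).trans (DirichletCharacter.norm_le_one _ _)), ← tsum_mul_left]
    refine tsum_congr fun p => ?_
    rw [← Finset.sum_mul, ← Complex.re_sum, DirichletCharacter.sum_characters_eq,
      Nat.totient_prime hq]
    unfold e1
    split_ifs with h
    · have : 1 ≤ q := hq.one_lt.le
      push_cast [this]
      simp
    · simp
  rw [hsum]
  ring

section
variable {K : Type} [Field K] [NumberField K]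

/-- **radical fields of prime degree have few primes without a degree one factor.** -/
lemma D0_le {θ : 𝓞 K} (h : Algebra.adjoin ℚ {(θ : K)} = ⊤) {q : ℕ} (hq : q.Prime)
    (hK : Module.finrank ℚ K = q) {a : ℤ} (ha : θ ^ q = (a : 𝓞 K)) :
    ∃ C : ℝ, ∀ᶠ x : ℝ in 𝓝[>] 1, D0 K x ≤ (1 / q) * Lam x + C := by
  classical
  obtain ⟨N, hN0, hN⟩ := exists_index h
  obtain ⟨C1, hC1⟩ := class_one_bdd hq
  obtain ⟨C2, hC2⟩ := sum_R_bdd (K := K)
  have hM : N.natAbs ≠ 0 := Int.natAbs_ne_zero.mpr hN0
  obtain ⟨C3, hC3⟩ := finite_support_bdd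
    (g := fun p : Nat.Primes => if (p : ℕ) ∣ N.natAbs then (2 : ℝ) else 0) (C := 2)
    (fun p => by split_ifs <;> simp) hM (fun p hp => if_neg hp)
  have hq1 : (1 : ℝ) < q := by exact_mod_cast hq.one_lt
  have hq0 : (0 : ℝ) < q := by linarith
  refine ⟨C1 / q + C2 / q + C3, ?_⟩
  filter_upwards [hC1, hC2, hC3, self_mem_nhdsWithin] with x h1 h2 h3 hx
  have hx' : (1 : ℝ) < x := hx
  have hRb : ∀ p : Nat.Primes, |(R K p : ℝ) - 1| ≤ q := fun p => by
    have a1 : (R K p : ℝ) ≤ q := by rw [← hK]; exact_mod_cast R_le p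
    have a0 : (0 : ℝ) ≤ (R K p : ℝ) := by positivity
    rw [abs_le]
    constructor <;> linarith
  have hs0 : Summable (fun p : Nat.Primes => (if R K p = 0 then (1 : ℝ) else 0) * w x p) :=
    bddmul_summable hx' (C := 1) fun p => by split_ifs <;> simp
  have hs1 : Summable (fun p : Nat.Primes => e1 q p * w x p) :=
    bddmul_summable hx' (C := 1) (e1_abs q)
  have hs2 : Summable (fun p : Nat.Primes => ((R K p : ℝ) - 1) * w x p) :=
    bddmul_summable hx' (C := q) hRb
  have hs3 : Summable (fun p : Nat.Primes => (if (p : ℕ) ∣ N.natAbs then (2 : ℝ) else 0) * w x p) :=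
    bddmul_summable hx' (C := 2) fun p => by split_ifs <;> simp
  have hpt : ∀ p : Nat.Primes, (if R K p = 0 then (1 : ℝ) else 0) * w x p ≤
      ((q : ℝ) - 1) / q * (e1 q p * w x p) - 1 / q * (((R K p : ℝ) - 1) * w x p) +
        (if (p : ℕ) ∣ N.natAbs then (2 : ℝ) else 0) * w x p := by
    intro p
    have hw := w_nonneg x p
    have hR0 : (0 : ℝ) ≤ (R K p : ℝ) := by positivity
    have hRq : (R K p : ℝ) ≤ q := by rw [← hK]; exact_mod_cast R_le p
    have key : (if R K p = 0 then (1 : ℝ) else 0) ≤ ((q : ℝ) - 1) / q * e1 q p -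
        1 / q * ((R K p : ℝ) - 1) + (if (p : ℕ) ∣ N.natAbs then (2 : ℝ) else 0) := by
      by_cases hpN : (p : ℕ) ∣ N.natAbs
      · rw [if_pos hpN]
        have b1 : (if R K p = 0 then (1 : ℝ) else 0) ≤ 1 := by split_ifs <;> norm_num
        have b2 : 0 ≤ ((q : ℝ) - 1) / q * e1 q p := by
          unfold e1
          split_ifs
          · have : 0 ≤ ((q : ℝ) - 1) / q := div_nonneg (by linarith) hq0.le
            simpa using this
          · simp
        have b3 : 1 / q * ((R K p : ℝ) - 1) ≤ 1 := by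
          rw [one_div, inv_mul_le_iff₀ hq0]
          linarith
        linarith
      · rw [if_neg hpN, add_zero]
        have hpN' : ¬ ((p : ℕ) : ℤ) ∣ N := by
          rwa [Int.natCast_dvd]
        by_cases hp1 : ((p : ℕ) : ZMod q) = 1
        · have e : e1 q p = 1 := by unfold e1; rw [if_pos hp1]
          rw [e, mul_one]
          split_ifs with hR
          · rw [hR]
            push_cast
            have : ((q : ℝ) - 1) / q - 1 / q * (0 - 1) = 1 := by field_simp; ring
            linarith
          · have : ((q : ℝ) - 1) / q - 1 / q * ((R K p : ℝ) - 1) = (q - R K p) / q := by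
              field_simp; ring
            rw [this]
            exact div_nonneg (by linarith) hq0.le
        · have e : e1 q p = 0 := by unfold e1; rw [if_neg hp1]
          have hcop : ((p : ℕ) - 1).Coprime q := by
            rw [Nat.coprime_comm, hq.coprime_iff_not_dvd]
            intro hd
            apply hp1
            have h5 : (((p : ℕ) - 1 : ℕ) : ZMod q) = 0 := by
              rw [ZMod.natCast_eq_zero_iff]; exact hd
            rw [Nat.cast_sub p.prop.one_lt.le] at h5
            push_cast at h5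
            exact sub_eq_zero.mp h5
          have hR1 := R_eq_one h hq.pos hK ha hN p hpN' hcop
          rw [hR1, e]
          norm_num
    have := mul_le_mul_of_nonneg_right key hw
    calc _ ≤ _ := this
      _ = _ := by ring
  have hle := Summable.tsum_le_tsum hpt hs0
    (((hs1.mul_left (((q : ℝ) - 1) / q)).sub (hs2.mul_left (1 / (q : ℝ)))).add hs3)
  rw [Summable.tsum_add ((hs1.mul_left _).sub (hs2.mul_left _)) hs3,
    Summable.tsum_sub (hs1.mul_left _) (hs2.mul_left _), tsum_mul_left, tsum_mul_left] at hle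
  have hD : D0 K x = ∑' p : Nat.Primes, (if R K p = 0 then (1 : ℝ) else 0) * w x p := rfl
  rw [← hD] at hle
  have k1 := (abs_le.mp h1).2
  have k2 := (abs_le.mp h2).1
  have k3 := (abs_le.mp h3).2
  have m1 : ((q : ℝ) - 1) / q * ∑' p : Nat.Primes, e1 q p * w x p ≤ (1 / q) * Lam x + C1 / q := by
    have : ((q : ℝ) - 1) / q * ∑' p : Nat.Primes, e1 q p * w x p =
        (1 / q) * (((q : ℝ) - 1) * ∑' p : Nat.Primes, e1 q p * w x p) := by ring
    rw [this]
    have h6 : (1 / (q : ℝ)) * (((q : ℝ) - 1) * ∑' p : Nat.Primes, e1 q p * w x p) ≤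
        (1 / (q : ℝ)) * (Lam x + C1) := mul_le_mul_of_nonneg_left (by linarith) (by positivity)
    calc _ ≤ _ := h6
      _ = _ := by ring
  have m2 : -(1 / (q : ℝ) * ∑' p : Nat.Primes, ((R K p : ℝ) - 1) * w x p) ≤ C2 / q := by
    have h6 : (1 / (q : ℝ)) * (-C2) ≤ (1 / (q : ℝ)) * ∑' p : Nat.Primes, ((R K p : ℝ) - 1) * w x p :=
      mul_le_mul_of_nonneg_left k2 (by positivity)
    have : (1 / (q : ℝ)) * (-C2) = -(C2 / q) := by ring
    linarith
  linarith

end

end Pool.Agent.H921R2.TatePole
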