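import Pool.Agent.H921R2.TatePole.Tensor
import Pool.Agent.H921R2.TatePole.Density

set_option autoImplicit false
set_option linter.unusedSectionVars false

open Complex Filter Topology NumberField IsDedekindDomain
open scoped TensorProduct

namespace Pool.Agent.H921R2.TatePole

section
variable (K L : Type) [Field K] [NumberField K] [Field L] [NumberField L]

/-- the number of simple factors of `K ⊗ L` -/
noncomputable def rk : ℕ := Nat.card (MaximalSpectrum (K ⊗[ℚ] L))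

noncomputable instance : Fintype (MaximalSpectrum (K ⊗[ℚ] L)) := Fintype.ofFinite _

lemma R_mul : ∃ N : ℤ, N ≠ 0 ∧ ∀ p : Nat.Primes, ¬ ((p : ℕ) : ℤ) ∣ N →
    R K p * R L p = ∑ m : MaximalSpectrum (K ⊗[ℚ] L), R (Fac K L m) p := by
  have hint : @Algebra.IsIntegral ℤ (𝓞 K ⊗[ℤ] 𝓞 L) _ _ (Ring.toIntAlgebra _) := by
    have h0 : Algebra.IsIntegral ℤ (𝓞 K ⊗[ℤ] 𝓞 L) := Algebra.IsIntegral.of_finite ℤ _
    constructor
    intro x
    have h1 := h0.isIntegral x
    obtain ⟨f, hf, hx⟩ := h1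
    exact ⟨f, hf, by rw [← hx]; congr 1⟩
  set e := (IsArtinianRing.equivPi (K ⊗[ℚ] L)).toRingEquiv with he
  set j : 𝓞 K ⊗[ℤ] 𝓞 L →+* (∀ m : MaximalSpectrum (K ⊗[ℚ] L), Fac K L m) :=
    (e : K ⊗[ℚ] L →+* (∀ m : MaximalSpectrum (K ⊗[ℚ] L), Fac K L m)).comp (jt K L) with hj
  have hinj : Function.Injective j := by
    rw [hj]
    exact e.injective.comp (jt_injective K L)
  have hlat : ∀ y : (∀ m : MaximalSpectrum (K ⊗[ℚ] L), Fac K L m), ∃ N : ℤ, N ≠ 0 ∧
      ∃ a, j a = (N : ∀ m : MaximalSpectrum (K ⊗[ℚ] L), Fac K L m) * y := by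
    intro y
    obtain ⟨N, hN, a, ha⟩ := jt_lattice K L (e.symm y)
    refine ⟨N, hN, a, ?_⟩
    rw [hj, RingHom.comp_apply, ha, map_mul, map_intCast]
    congr 1
    exact e.apply_symm_apply y
  obtain ⟨N, hN0, hN⟩ := hc_eq_sum (Fac K L) j hinj hlat
  refine ⟨N, hN0, fun p hp => ?_⟩
  have h1 := hN p hp
  rw [hc_tensor] at h1
  rw [R_eq_hc, R_eq_hc, h1]
  exact Finset.sum_congr rfl fun m _ => (R_eq_hc p).symm

variable {K L}

lemma R_abs (p : Nat.Primes) : |(R K p : ℝ)| ≤ Module.finrank ℚ K := by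
  rw [abs_of_nonneg (by positivity)]
  exact_mod_cast R_le p

lemma sum_R_Lam : Bdd (fun x => ∑' p : Nat.Primes, (R K p : ℝ) * w x p - Lam x) := by
  refine ((sum_R_bdd (K := K)).add W_sub_Lam_bdd).congr fun x hx => ?_
  have hs1 : Summable (fun p : Nat.Primes => (R K p : ℝ) * w x p) := bddmul_summable hx R_abs
  have e : ∀ p : Nat.Primes, ((R K p : ℝ) - 1) * w x p = (R K p : ℝ) * w x p - w x p :=
    fun p => by ring
  rw [tsum_congr e, Summable.tsum_sub hs1 (w_summable hx)]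
  have : W x = ∑' p, w x p := rfl
  rw [this]
  ring

variable (K L) in
lemma prod_bdd : Bdd (fun x => ∑' p : Nat.Primes, ((R K p : ℝ) * (R L p : ℝ)) * w x p -
    (rk K L : ℝ) * Lam x) := by
  classical
  obtain ⟨N, hN0, hN⟩ := R_mul K L
  have hM : N.natAbs ≠ 0 := Int.natAbs_ne_zero.mpr hN0
  have hsum : Bdd (fun x => ∑ m : MaximalSpectrum (K ⊗[ℚ] L),
      (∑' p : Nat.Primes, (R (Fac K L m) p : ℝ) * w x p - Lam x)) :=
    Bdd.sum _ fun m _ => sum_R_Lam
  have hRb : ∀ m : MaximalSpectrum (K ⊗[ℚ] L), ∃ C : ℝ, ∀ p, |(R (Fac K L m) p : ℝ)| ≤ C :=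
    fun m => ⟨_, R_abs⟩
  choose Cm hCm using hRb
  set D : ℝ := Module.finrank ℚ K * Module.finrank ℚ L +
    ∑ m : MaximalSpectrum (K ⊗[ℚ] L), Cm m with hD
  have hb1 : ∀ p : Nat.Primes, |(R K p : ℝ) * (R L p : ℝ)| ≤
      Module.finrank ℚ K * Module.finrank ℚ L := fun p => by
    rw [abs_mul]
    exact mul_le_mul (R_abs p) (R_abs p) (abs_nonneg _) (by positivity)
  have hb2 : ∀ p : Nat.Primes, |∑ m : MaximalSpectrum (K ⊗[ℚ] L), (R (Fac K L m) p : ℝ)| ≤
      ∑ m : MaximalSpectrum (K ⊗[ℚ] L), Cm m := fun p =>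
    (Finset.abs_sum_le_sum_abs _ _).trans (Finset.sum_le_sum fun m _ => hCm m p)
  have herr : Bdd (fun x => ∑' p : Nat.Primes, ((R K p : ℝ) * (R L p : ℝ) -
      ∑ m : MaximalSpectrum (K ⊗[ℚ] L), (R (Fac K L m) p : ℝ)) * w x p) := by
    refine finite_support_bdd (C := D) (fun p => ?_) hM fun p hp => ?_
    · refine (abs_sub _ _).trans ?_
      rw [hD]
      exact add_le_add (hb1 p) (hb2 p)
    · have h1 := hN p (by rwa [Int.natCast_dvd])
      have h2 : (R K p : ℝ) * (R L p : ℝ) =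
          ∑ m : MaximalSpectrum (K ⊗[ℚ] L), (R (Fac K L m) p : ℝ) := by
        rw [← Nat.cast_mul, h1]
        push_cast
        rfl
      rw [h2, sub_self]
  refine (herr.add hsum).congr fun x hx => ?_
  have hs1 : Summable (fun p : Nat.Primes => ((R K p : ℝ) * (R L p : ℝ)) * w x p) :=
    bddmul_summable hx hb1
  have hs2 : Summable (fun p : Nat.Primes =>
      (∑ m : MaximalSpectrum (K ⊗[ℚ] L), (R (Fac K L m) p : ℝ)) * w x p) :=
    bddmul_summable hx hb2
  have e : ∀ p : Nat.Primes, ((R K p : ℝ) * (R L p : ℝ) -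
      ∑ m : MaximalSpectrum (K ⊗[ℚ] L), (R (Fac K L m) p : ℝ)) * w x p =
      ((R K p : ℝ) * (R L p : ℝ)) * w x p -
      (∑ m : MaximalSpectrum (K ⊗[ℚ] L), (R (Fac K L m) p : ℝ)) * w x p := fun p => by ring
  rw [tsum_congr e, Summable.tsum_sub hs1 hs2]
  have e2 : ∑' p : Nat.Primes, (∑ m : MaximalSpectrum (K ⊗[ℚ] L), (R (Fac K L m) p : ℝ)) * w x p =
      ∑ m : MaximalSpectrum (K ⊗[ℚ] L), ∑' p : Nat.Primes, (R (Fac K L m) p : ℝ) * w x p := by
    rw [← Summable.tsum_finsetSum (fun m _ => bddmul_summable hx R_abs)]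
    exact tsum_congr fun p => by rw [Finset.sum_mul]
  rw [e2, Finset.sum_sub_distrib, Finset.sum_const, Finset.card_univ, nsmul_eq_mul]
  have : rk K L = Fintype.card (MaximalSpectrum (K ⊗[ℚ] L)) := Nat.card_eq_fintype_card
  rw [this]
  ring

/-- the Gram matrix of the vectors `R_K - 1` -/
lemma gram_bdd : Bdd (fun x => ∑' p : Nat.Primes, (((R K p : ℝ) - 1) * ((R L p : ℝ) - 1)) * w x p -
    ((rk K L : ℝ) - 1) * Lam x) := by
  refine (((prod_bdd K L).sub (sum_R_bdd (K := K))).sub (sum_R_bdd (K := L)) |>.sub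
    W_sub_Lam_bdd).congr fun x hx => ?_
  have hs1 : Summable (fun p : Nat.Primes => ((R K p : ℝ) * (R L p : ℝ)) * w x p) :=
    bddmul_summable hx (C := Module.finrank ℚ K * Module.finrank ℚ L) fun p => by
      rw [abs_mul]
      exact mul_le_mul (R_abs p) (R_abs p) (abs_nonneg _) (by positivity)
  have hs2 : Summable (fun p : Nat.Primes => ((R K p : ℝ) - 1) * w x p) :=
    bddmul_summable hx (C := Module.finrank ℚ K + 1) fun p =>
      (abs_sub _ _).trans (by rw [abs_one]; exact add_le_add (R_abs p) le_rfl)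
  have hs3 : Summable (fun p : Nat.Primes => ((R L p : ℝ) - 1) * w x p) :=
    bddmul_summable hx (C := Module.finrank ℚ L + 1) fun p =>
      (abs_sub _ _).trans (by rw [abs_one]; exact add_le_add (R_abs p) le_rfl)
  have e : ∀ p : Nat.Primes, (((R K p : ℝ) - 1) * ((R L p : ℝ) - 1)) * w x p =
      ((R K p : ℝ) * (R L p : ℝ)) * w x p - ((R K p : ℝ) - 1) * w x p -
      ((R L p : ℝ) - 1) * w x p - w x p := fun p => by ring
  rw [tsum_congr e, Summable.tsum_sub ((hs1.sub hs2).sub hs3) (w_summable hx),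
    Summable.tsum_sub (hs1.sub hs2) hs3, Summable.tsum_sub hs1 hs2]
  have : W x = ∑' p, w x p := rfl
  rw [← this]
  ring

lemma rk_eq_one (h : IsField (K ⊗[ℚ] L)) : rk K L = 1 := by
  unfold rk
  rw [Nat.card_eq_one_iff_unique]
  have hs : IsSimpleOrder (Ideal (K ⊗[ℚ] L)) := Ring.isField_iff_isSimpleOrder_ideal.mp h
  constructor
  · constructor
    intro a b
    have ha : ∀ c : MaximalSpectrum (K ⊗[ℚ] L), c.asIdeal = ⊥ := fun c =>
      (hs.eq_bot_or_eq_top c.asIdeal).resolve_right c.isMaximal.ne_top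
    exact MaximalSpectrum.ext ((ha a).trans (ha b).symm)
  · exact ⟨⟨⊥, ⟨isCoatom_bot⟩⟩⟩

variable (K) in
lemma two_le_rk (h : 1 < Module.finrank ℚ K) : 2 ≤ rk K K := by
  by_contra hlt
  have hnt : Nontrivial (K ⊗[ℚ] K) := inferInstance
  set μ := Algebra.TensorProduct.lmul' ℚ (S := K) with hμ
  have hsurj : Function.Surjective μ := fun x => ⟨x ⊗ₜ 1, by simp [hμ]⟩
  have hmax : (RingHom.ker μ.toRingHom).IsMaximal := RingHom.ker_isMaximal_of_surjective _ hsurj
  have hcard : Nat.card (MaximalSpectrum (K ⊗[ℚ] K)) ≤ 1 := by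
    unfold rk at hlt
    omega
  have hsub : Subsingleton (MaximalSpectrum (K ⊗[ℚ] K)) :=
    Finite.card_le_one_iff_subsingleton.mp hcard
  have hinj : Function.Injective μ.toLinearMap := by
    rw [← LinearMap.ker_eq_bot, LinearMap.ker_eq_bot']
    intro x hx
    have hx' : x ∈ RingHom.ker μ.toRingHom := hx
    apply (IsArtinianRing.equivPi (K ⊗[ℚ] K)).injective
    rw [map_zero]
    funext m
    have hm : m = ⟨RingHom.ker μ.toRingHom, hmax⟩ := Subsingleton.elim _ _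
    subst hm
    rw [IsArtinianRing.equivPi_apply]
    exact Ideal.Quotient.eq_zero_iff_mem.mpr hx'
  have hle := LinearMap.finrank_le_finrank_of_injective hinj
  rw [Module.finrank_tensorProduct] at hle
  nlinarith

end

end Pool.Agent.H921R2.TatePole
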