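import Pool.Agent.H921R2.TatePole.Count

set_option autoImplicit false
set_option linter.unusedSectionVars false

open Complex Filter Topology NumberField IsDedekindDomain
open scoped TensorProduct

namespace Pool.Agent.H921R2.TatePole

/-- the ring homomorphism from a tensor product over `ℤ` -/
noncomputable def ringLift {A B C : Type} [CommRing A] [CommRing B] [CommRing C] (g : A →+* C)
    (h : B →+* C) : A ⊗[ℤ] B →+* C :=
  (Algebra.TensorProduct.lift g.toIntAlgHom h.toIntAlgHom (fun _ _ => Commute.all _ _)).toRingHom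

lemma ringLift_tmul {A B C : Type} [CommRing A] [CommRing B] [CommRing C] (g : A →+* C)
    (h : B →+* C) (a : A) (b : B) : ringLift g h (a ⊗ₜ b) = g a * h b :=
  Algebra.TensorProduct.lift_tmul _ _ _ _ _

/-- homomorphisms from a tensor product -/
lemma hc_tensor (A B : Type) [CommRing A] [CommRing B] (p : ℕ) :
    hc (A ⊗[ℤ] B) p = hc A p * hc B p := by
  unfold hc
  rw [← Nat.card_prod]
  refine Nat.card_congr ?_
  refine ⟨fun f => (f.comp (Algebra.TensorProduct.includeLeft (R := ℤ) (S := ℤ) (A := A) (B := B)).toRingHom,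
    f.comp (Algebra.TensorProduct.includeRight (R := ℤ) (A := A) (B := B)).toRingHom),
    fun g => ringLift g.1 g.2, ?_, ?_⟩
  · intro f
    refine RingHom.ext fun x => ?_
    simp only
    induction x using TensorProduct.induction_on with
    | zero => rw [map_zero, map_zero]
    | tmul a b =>
      rw [ringLift_tmul]
      change f (a ⊗ₜ 1) * f (1 ⊗ₜ b) = f (a ⊗ₜ b)
      rw [← map_mul, Algebra.TensorProduct.tmul_mul_tmul, one_mul, mul_one]
    | add x y hx hy => rw [map_add, map_add, hx, hy]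
  · rintro ⟨g, h⟩
    apply Prod.ext
    · refine RingHom.ext fun a => ?_
      change ringLift g h (a ⊗ₜ 1) = g a
      rw [ringLift_tmul, map_one, mul_one]
    · refine RingHom.ext fun b => ?_
      change ringLift g h (1 ⊗ₜ b) = h b
      rw [ringLift_tmul, map_one, one_mul]

section
variable (K L : Type) [Field K] [NumberField K] [Field L] [NumberField L]

/-- the map `𝓞 K ⊗ 𝓞 L → K ⊗ L` -/
noncomputable def jt : 𝓞 K ⊗[ℤ] 𝓞 L →+* K ⊗[ℚ] L :=
  ringLift
    ((Algebra.TensorProduct.includeLeft (R := ℚ) (S := ℚ) (A := K) (B := L)).toRingHom.comp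
      (algebraMap (𝓞 K) K))
    ((Algebra.TensorProduct.includeRight (R := ℚ) (A := K) (B := L)).toRingHom.comp
      (algebraMap (𝓞 L) L))

variable {K L} in
lemma jt_tmul (x : 𝓞 K) (y : 𝓞 L) : jt K L (x ⊗ₜ y) = (x : K) ⊗ₜ (y : L) := by
  unfold jt
  rw [ringLift_tmul]
  change ((x : K) ⊗ₜ[ℚ] (1 : L)) * ((1 : K) ⊗ₜ[ℚ] (y : L)) = _
  rw [Algebra.TensorProduct.tmul_mul_tmul, one_mul, mul_one]

lemma jt_injective : Function.Injective (jt K L) := by
  set b := (RingOfIntegers.basis K).tensorProduct (RingOfIntegers.basis L) with hb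
  set b' := (integralBasis K).tensorProduct (integralBasis L) with hb'
  have hbb : ∀ i, jt K L (b i) = b' i := by
    rintro ⟨i, i'⟩
    rw [hb, hb', Module.Basis.tensorProduct_apply, Module.Basis.tensorProduct_apply, jt_tmul,
      integralBasis_apply, integralBasis_apply]
  rw [injective_iff_map_eq_zero]
  intro x hx
  have h1 : ∑ i, ((b.repr x i : ℤ) : ℚ) • b' i = 0 := by
    have h2 := congrArg (jt K L) (b.sum_repr x)
    rw [hx, map_sum] at h2
    rw [← h2]
    refine Finset.sum_congr rfl fun i _ => ?_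
    rw [map_zsmul, hbb, Int.cast_smul_eq_zsmul]
  have h3 := Fintype.linearIndependent_iff.mp b'.linearIndependent _ h1
  apply b.ext_elem
  intro i
  have := h3 i
  rw [map_zero]
  simpa using this

lemma exists_int_mul (x : K) : ∃ N : ℤ, N ≠ 0 ∧ ∃ a : 𝓞 K, (a : K) = (N : K) * x := by
  have halg : IsAlgebraic ℤ x := by
    have : Algebra.IsAlgebraic ℤ K := by
      have := IsLocalization.isAlgebraic ℚ (nonZeroDivisors ℤ)
      exact Algebra.IsAlgebraic.trans ℤ ℚ K
    exact Algebra.IsAlgebraic.isAlgebraic x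
  obtain ⟨y, hy, hi⟩ := halg.exists_integral_multiple
  refine ⟨y, hy, ⟨⟨y • x, hi⟩, ?_⟩⟩
  change y • x = _
  rw [zsmul_eq_mul]

lemma jt_lattice (e : K ⊗[ℚ] L) : ∃ N : ℤ, N ≠ 0 ∧ ∃ a, jt K L a = (N : K ⊗[ℚ] L) * e := by
  induction e using TensorProduct.induction_on with
  | zero => exact ⟨1, one_ne_zero, 0, by simp⟩
  | tmul x y =>
    obtain ⟨N, hN, a, ha⟩ := exists_int_mul K x
    obtain ⟨N', hN', a', ha'⟩ := exists_int_mul L y
    refine ⟨N * N', mul_ne_zero hN hN', a ⊗ₜ a', ?_⟩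
    rw [jt_tmul, ha, ha']
    have h1 : ((N : K) * x) ⊗ₜ[ℚ] ((N' : L) * y) = (N * N' : ℤ) • (x ⊗ₜ[ℚ] y) := by
      rw [← zsmul_eq_mul, ← zsmul_eq_mul, mul_smul, ← TensorProduct.smul_tmul',
        TensorProduct.tmul_smul]
    rw [h1, zsmul_eq_mul]
  | add x y hx hy =>
    obtain ⟨N, hN, a, ha⟩ := hx
    obtain ⟨N', hN', a', ha'⟩ := hy
    refine ⟨N * N', mul_ne_zero hN hN', (N' : ℤ) • a + N • a', ?_⟩
    rw [map_add, map_zsmul, map_zsmul, ha, ha', zsmul_eq_mul, zsmul_eq_mul]
    push_cast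
    ring

instance : Module.Finite ℚ (K ⊗[ℚ] L) := inferInstance

instance artin : IsArtinianRing (K ⊗[ℚ] L) := IsArtinianRing.of_finite ℚ _

instance reduced : IsReduced (K ⊗[ℚ] L) := by
  have h0 : Algebra.FormallyUnramified ℚ L := Algebra.FormallyUnramified.of_isSeparable ℚ L
  have : Algebra.FormallyUnramified K (K ⊗[ℚ] L) := inferInstance
  exact Algebra.FormallyUnramified.isReduced_of_field K (K ⊗[ℚ] L)

/-- the simple factors of `K ⊗ L` -/
abbrev Fac (m : MaximalSpectrum (K ⊗[ℚ] L)) : Type := (K ⊗[ℚ] L) ⧸ m.asIdeal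

noncomputable instance facField (m : MaximalSpectrum (K ⊗[ℚ] L)) : Field (Fac K L m) :=
  Ideal.Quotient.field m.asIdeal

instance facNF (m : MaximalSpectrum (K ⊗[ℚ] L)) : NumberField (Fac K L m) :=
  NumberField.of_module_finite ℚ (Fac K L m)

end

end Pool.Agent.H921R2.TatePole
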