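import Pool.Agent.H921R2.TatePole.Gram

set_option autoImplicit false
set_option linter.unusedSectionVars false

open Complex Filter Topology NumberField IsDedekindDomain
open scoped TensorProduct

namespace Pool.Agent.H921R2.TatePole

lemma Lam_one_le : ∀ᶠ x : ℝ in 𝓝[>] 1, 1 ≤ Lam x := Lam_tendsto.eventually_ge_atTop 1

/-- Bessel's inequality for an almost orthogonal family. -/
lemma bessel2 {κ : Type} [Fintype κ] (a : Nat.Primes → ℝ) (T : ℝ) (ha : ∀ p, |a p| ≤ T)
    (u : κ → Nat.Primes → ℝ) (B : κ → ℝ) (hu : ∀ i p, |u i p| ≤ B i) (c : κ → ℝ)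
    (hc : ∀ i, 0 < c i)
    (hG0 : ∀ i, Bdd (fun x => ∑' p, (u i p * u i p) * w x p - c i * Lam x))
    (hG1 : ∀ i j, i ≠ j → Bdd (fun x => ∑' p, (u i p * u j p) * w x p)) :
    ∃ C : ℝ, ∀ᶠ x : ℝ in 𝓝[>] 1,
      ∑ i, (∑' p, (a p * u i p) * w x p) ^ 2 / c i ≤
        Lam x * (∑' p, a p ^ 2 * w x p) + C * Lam x := by
  classical
  have hT0 : 0 ≤ T := (abs_nonneg _).trans (ha ⟨2, Nat.prime_two⟩)
  have hB0 : ∀ i, 0 ≤ B i := fun i => (abs_nonneg _).trans (hu i ⟨2, Nat.prime_two⟩)
  have hG : ∀ ij : κ × κ, ∃ E : ℝ, ∀ᶠ x : ℝ in 𝓝[>] 1,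
      |∑' p, (u ij.1 p * u ij.2 p) * w x p - (if ij.1 = ij.2 then c ij.1 else 0) * Lam x| ≤ E := by
    rintro ⟨i, j⟩
    by_cases h : i = j
    · subst h
      obtain ⟨E, hE⟩ := hG0 i
      exact ⟨E, by simpa using hE⟩
    · obtain ⟨E, hE⟩ := hG1 i j h
      exact ⟨E, by simpa [h] using hE⟩
  choose E hE using hG
  have hEall : ∀ᶠ x : ℝ in 𝓝[>] 1, ∀ ij : κ × κ,
      |∑' p, (u ij.1 p * u ij.2 p) * w x p - (if ij.1 = ij.2 then c ij.1 else 0) * Lam x| ≤ E ij :=
    eventually_all.mpr hE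
  obtain ⟨C2, hC2⟩ := W_sub_Lam_bdd
  set Y : κ → ℝ := fun i => T * B i * (1 + |C2|) / c i with hY
  have hY0 : ∀ i, 0 ≤ Y i := fun i => by
    have := hB0 i
    have := hc i
    rw [hY]; positivity
  refine ⟨∑ i, ∑ j, Y i * Y j * |E (i, j)|, ?_⟩
  filter_upwards [hEall, hC2, Lam_one_le, self_mem_nhdsWithin] with x hEx h2 hΛ1 hx1
  have hx : 1 < x := hx1
  set Λ : ℝ := Lam x with hΛ
  have hΛ0 : 0 < Λ := by linarith
  set D : κ → ℝ := fun i => ∑' p, (a p * u i p) * w x p with hD
  set A : ℝ := ∑' p, a p ^ 2 * w x p with hA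
  set y : κ → ℝ := fun i => D i / (c i * Λ) with hy
  have hWΛ : W x ≤ (1 + |C2|) * Λ := by
    have h3 := (abs_le.mp h2).2
    have h4 := le_abs_self C2
    have h5 : |C2| ≤ |C2| * Λ := le_mul_of_one_le_right (abs_nonneg _) hΛ1
    linarith
  have hau : ∀ i p, |a p * u i p| ≤ T * B i := fun i p => by
    rw [abs_mul]
    exact mul_le_mul (ha p) (hu i p) (abs_nonneg _) hT0
  have hsau : ∀ i, Summable (fun p => (a p * u i p) * w x p) := fun i =>
    bddmul_summable hx (hau i)
  have hsuu : ∀ i j, Summable (fun p => (u i p * u j p) * w x p) := fun i j =>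
    bddmul_summable hx (C := B i * B j) fun p => by
      rw [abs_mul]
      exact mul_le_mul (hu i p) (hu j p) (abs_nonneg _) (hB0 i)
  have hsaa : Summable (fun p => a p ^ 2 * w x p) :=
    bddmul_summable hx (C := T ^ 2) fun p => by
      rw [abs_pow]
      exact pow_le_pow_left₀ (abs_nonneg _) (ha p) 2
  have hDle : ∀ i, |D i| ≤ T * B i * W x := by
    intro i
    have := tsum_of_norm_bounded (f := fun p => (a p * u i p) * w x p)
      ((w_summable hx).mul_left (T * B i)).hasSum (fun p => by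
        rw [norm_mul, Real.norm_eq_abs, Real.norm_eq_abs, abs_of_nonneg (w_nonneg x p)]
        exact mul_le_mul_of_nonneg_right (hau i p) (w_nonneg x p))
    rw [Real.norm_eq_abs, tsum_mul_left] at this
    exact this
  have hyY : ∀ i, |y i| ≤ Y i := by
    intro i
    rw [hy, hY]
    simp only
    rw [abs_div, abs_of_pos (mul_pos (hc i) hΛ0), div_le_div_iff₀ (mul_pos (hc i) hΛ0) (hc i)]
    have h3 : |D i| ≤ T * B i * ((1 + |C2|) * Λ) :=
      (hDle i).trans (mul_le_mul_of_nonneg_left hWΛ (mul_nonneg hT0 (hB0 i)))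
    have := mul_le_mul_of_nonneg_right h3 (hc i).le
    calc |D i| * c i ≤ T * B i * ((1 + |C2|) * Λ) * c i := this
      _ = _ := by ring
  -- the quadratic form
  have hpt : ∀ p, 0 ≤ (a p - ∑ i, y i * u i p) ^ 2 * w x p := fun p =>
    mul_nonneg (sq_nonneg _) (w_nonneg x p)
  have hexp : ∀ p, (a p - ∑ i, y i * u i p) ^ 2 * w x p =
      a p ^ 2 * w x p - 2 * ∑ i, y i * ((a p * u i p) * w x p) +
        ∑ i, ∑ j, y i * y j * ((u i p * u j p) * w x p) := by
    intro p
    have e1 : (∑ i, y i * u i p) ^ 2 = ∑ i, ∑ j, (y i * u i p) * (y j * u j p) := by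
      rw [sq, Finset.sum_mul_sum]
    have e2 : (a p - ∑ i, y i * u i p) ^ 2 = a p ^ 2 - 2 * ∑ i, y i * (a p * u i p) +
        ∑ i, ∑ j, (y i * u i p) * (y j * u j p) := by
      rw [← e1]
      have e3 : ∑ i, y i * (a p * u i p) = a p * ∑ i, y i * u i p := by
        rw [Finset.mul_sum]
        exact Finset.sum_congr rfl fun i _ => by ring
      rw [e3]
      ring
    rw [e2, add_mul, sub_mul, Finset.sum_mul]
    congr 1
    · congr 1
      rw [mul_assoc, Finset.sum_mul]
      congr 1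
      exact Finset.sum_congr rfl fun i _ => by ring
    · refine Finset.sum_congr rfl fun i _ => ?_
      rw [Finset.sum_mul]
      exact Finset.sum_congr rfl fun j _ => by ring
  have hs1 : Summable (fun p => ∑ i, y i * ((a p * u i p) * w x p)) :=
    summable_sum fun i _ => (hsau i).mul_left _
  have hs2 : Summable (fun p => ∑ i, ∑ j, y i * y j * ((u i p * u j p) * w x p)) :=
    summable_sum fun i _ => summable_sum fun j _ => (hsuu i j).mul_left _
  have hmain : 0 ≤ A - 2 * ∑ i, y i * D i +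
      ∑ i, ∑ j, y i * y j * (∑' p, (u i p * u j p) * w x p) := by
    have h0 : 0 ≤ ∑' p, (a p - ∑ i, y i * u i p) ^ 2 * w x p := tsum_nonneg hpt
    rw [tsum_congr hexp, Summable.tsum_add (hsaa.sub (hs1.mul_left 2)) hs2,
      Summable.tsum_sub hsaa (hs1.mul_left 2), tsum_mul_left,
      Summable.tsum_finsetSum (fun i _ => (hsau i).mul_left _),
      Summable.tsum_finsetSum (fun i _ => summable_sum fun j _ => (hsuu i j).mul_left _)] at h0
    have e4 : ∀ i, ∑' p, y i * ((a p * u i p) * w x p) = y i * D i := fun i => tsum_mul_left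
    have e5 : ∀ i, ∑' p, ∑ j, y i * y j * ((u i p * u j p) * w x p) =
        ∑ j, y i * y j * (∑' p, (u i p * u j p) * w x p) := fun i => by
      rw [Summable.tsum_finsetSum (fun j _ => (hsuu i j).mul_left _)]
      exact Finset.sum_congr rfl fun j _ => tsum_mul_left
    rw [Finset.sum_congr rfl fun i _ => e4 i, Finset.sum_congr rfl fun i _ => e5 i] at h0
    exact h0
  -- insert the Gram matrix
  have hquad : ∑ i, ∑ j, y i * y j * (∑' p, (u i p * u j p) * w x p) ≤
      ∑ i, y i ^ 2 * (c i * Λ) + ∑ i, ∑ j, Y i * Y j * |E (i, j)| := by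
    rw [← Finset.sum_add_distrib]
    refine Finset.sum_le_sum fun i _ => ?_
    have hterm : ∀ j, y i * y j * (∑' p, (u i p * u j p) * w x p) ≤
        (if i = j then y i ^ 2 * (c i * Λ) else 0) + Y i * Y j * |E (i, j)| := by
      intro j
      have h3 := hEx (i, j)
      simp only at h3
      set G : ℝ := ∑' p, (u i p * u j p) * w x p
      have h4 : y i * y j * G = y i * y j * ((if i = j then c i else 0) * Λ) +
          y i * y j * (G - (if i = j then c i else 0) * Λ) := by ring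
      rw [h4]
      refine add_le_add ?_ ?_
      · by_cases h : i = j
        · subst h
          simp only [if_true]
          apply le_of_eq; ring
        · simp [h]
      · refine (le_abs_self _).trans ?_
        rw [abs_mul, abs_mul]
        refine mul_le_mul (mul_le_mul (hyY i) (hyY j) (abs_nonneg _) (hY0 i))
          (h3.trans (le_abs_self _)) (abs_nonneg _) (mul_nonneg (hY0 i) (hY0 j))
    refine (Finset.sum_le_sum fun j _ => hterm j).trans ?_
    rw [Finset.sum_add_distrib, Finset.sum_ite_eq]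
    simp
  have hyD : ∀ i, y i * D i = D i ^ 2 / c i / Λ := fun i => by
    rw [hy]; simp only
    have := (hc i).ne'
    field_simp
  have hyy : ∀ i, y i ^ 2 * (c i * Λ) = D i ^ 2 / c i / Λ := fun i => by
    rw [hy]; simp only
    have := (hc i).ne'
    field_simp
  rw [Finset.sum_congr rfl fun i _ => hyD i] at hmain
  rw [Finset.sum_congr rfl fun i _ => hyy i] at hquad
  rw [← Finset.sum_div] at hmain hquad
  have hfin : (∑ i, D i ^ 2 / c i) / Λ ≤ A + ∑ i, ∑ j, Y i * Y j * |E (i, j)| := by linarith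
  rw [div_le_iff₀ hΛ0] at hfin
  calc ∑ i, D i ^ 2 / c i ≤ (A + ∑ i, ∑ j, Y i * Y j * |E (i, j)|) * Λ := hfin
    _ = _ := by ring

end Pool.Agent.H921R2.TatePole
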