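import Pool.Agent.H921R2.TatePole.Main

set_option autoImplicit false

open Complex Filter Topology

namespace Pool.Agent.H921R2.TatePole

/-- Order of vanishing `k` at `s₀`, computed along `s₀ + x`, `x → 0+`. -/
def HasOrderAt (f : ℂ → ℂ) (s₀ : ℂ) (k : ℤ) : Prop :=
  ∃ c : ℂ, c ≠ 0 ∧ Tendsto (fun x : ℝ => (x : ℂ) ^ (-k) * f (s₀ + x)) (𝓝[>] 0) (𝓝 c)

lemma log_one_div_tendsto : Tendsto (fun x : ℝ => Real.log (1 / x)) (𝓝[>] 0) atTop := by
  have h2 := Real.tendsto_log_atTop.comp tendsto_inv_nhdsGT_zero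
  refine h2.congr fun x => ?_
  simp [Function.comp]

lemma HasOrderAt.log_tendsto {f : ℂ → ℂ} {s₀ : ℂ} {k : ℤ} (h : HasOrderAt f s₀ k) :
    Tendsto (fun x : ℝ => Real.log ‖f (s₀ + x)‖ / Real.log (1 / x)) (𝓝[>] 0) (𝓝 (-(k : ℝ))) := by
  obtain ⟨c, hc, h⟩ := h
  have h1 : Tendsto (fun x : ℝ => Real.log ‖(x : ℂ) ^ (-k) * f (s₀ + x)‖) (𝓝[>] 0)
      (𝓝 (Real.log ‖c‖)) := h.norm.log (by simpa using hc)
  have h2 : Tendsto (fun x : ℝ => Real.log ‖(x : ℂ) ^ (-k) * f (s₀ + x)‖ / Real.log (1 / x))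
      (𝓝[>] 0) (𝓝 0) := h1.div_atTop log_one_div_tendsto
  have hne : ∀ᶠ x : ℝ in 𝓝[>] 0, (x : ℂ) ^ (-k) * f (s₀ + x) ≠ 0 := by
    have := h.eventually (isOpen_ne.mem_nhds hc)
    exact this
  have hL : ∀ᶠ x : ℝ in 𝓝[>] 0, 1 ≤ Real.log (1 / x) :=
    log_one_div_tendsto.eventually_ge_atTop 1
  have h3 : Tendsto (fun x : ℝ => Real.log ‖(x : ℂ) ^ (-k) * f (s₀ + x)‖ / Real.log (1 / x) - k)
      (𝓝[>] 0) (𝓝 (0 - (k : ℝ))) := h2.sub_const _
  rw [zero_sub] at h3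
  refine h3.congr' ?_
  filter_upwards [hne, hL, self_mem_nhdsWithin] with x hx hLx hx0
  have hx0' : 0 < x := hx0
  have hf : f (s₀ + x) ≠ 0 := right_ne_zero_of_mul hx
  have hxk : (x : ℂ) ^ (-k) ≠ 0 := left_ne_zero_of_mul hx
  rw [norm_mul, Real.log_mul (norm_ne_zero_iff.mpr hxk) (norm_ne_zero_iff.mpr hf), norm_zpow,
    Complex.norm_real, Real.norm_eq_abs, abs_of_pos hx0', Real.log_zpow]
  have e : Real.log (1 / x) = - Real.log x := by rw [one_div, Real.log_inv]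
  have hl : Real.log x ≠ 0 := by
    intro h0; rw [e, h0] at hLx; norm_num at hLx
  rw [e]
  push_cast
  field_simp
  ring

/-- transport along `x ↦ 1 + x`. -/
lemma tendsto_one_add : Tendsto (fun x : ℝ => 1 + x) (𝓝[>] 0) (𝓝[>] 1) := by
  rw [tendsto_nhdsWithin_iff]
  constructor
  · have : Tendsto (fun x : ℝ => 1 + x) (𝓝 0) (𝓝 (1 + 0)) := tendsto_id.const_add 1
    simpa using this.mono_left nhdsWithin_le_nhds
  · filter_upwards [self_mem_nhdsWithin] with x hx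
    have hx' : (0 : ℝ) < x := hx
    show 1 < 1 + x
    linarith

/-- The Euler product `∏_p ∏_j (1 - χ(p) β(p,j) p^{-s})⁻¹`. -/
noncomputable def twistedL {J : Type} [Fintype J] (β : Nat.Primes → J → ℂ) {N : ℕ}
    (χ : DirichletCharacter ℂ N) (s : ℂ) : ℂ :=
  ∏' p : Nat.Primes, ∏ j : J,
    (1 - χ ((p : ℕ) : ZMod N) * β p j * ((p : ℕ) : ℂ) ^ (-s))⁻¹

/-- The Euler product of `V ⊗ V̄` over the primes outside `S`. -/
noncomputable def selfL {J : Type} [Fintype J] (β : Nat.Primes → J → ℂ)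
    (S : Finset Nat.Primes) (s : ℂ) : ℂ :=
  ∏' p : {p : Nat.Primes // p ∉ S}, ∏ jk : J × J,
    (1 - β p jk.1 * (starRingEnd ℂ) (β p jk.2) * (((p : Nat.Primes) : ℕ) : ℂ) ^ (-s))⁻¹

section
variable {J : Type} [Fintype J]

open Classical in
/-- normalised parameters, put to `0` on `S` -/
noncomputable def nrm (m : ℕ) (β : Nat.Primes → J → ℂ) (S : Finset Nat.Primes)
    (p : Nat.Primes) (j : J) : ℂ :=
  if p ∈ S then 0 else β p j * ((p : ℕ) : ℂ) ^ (-(m : ℂ))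

lemma nrm_le {m : ℕ} {β : Nat.Primes → J → ℂ} {S : Finset Nat.Primes}
    (hβ : ∀ p ∉ S, ∀ j, ‖β p j‖ ≤ ((p : ℕ) : ℝ) ^ m) (p : Nat.Primes) (j : J) :
    ‖nrm m β S p j‖ ≤ 1 := by
  unfold nrm
  split_ifs with h
  · simp
  · rw [norm_mul, prime_cpow_norm]
    have hp : (0 : ℝ) < ((p : ℕ) : ℝ) := by exact_mod_cast p.prop.pos
    have h1 := hβ p h j
    have h2 : ((p : ℕ) : ℝ) ^ (-(m : ℂ).re) = (((p : ℕ) : ℝ) ^ m)⁻¹ := by
      rw [Complex.natCast_re, Real.rpow_neg hp.le, Real.rpow_natCast]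
    rw [h2]
    have h3 : (0 : ℝ) < ((p : ℕ) : ℝ) ^ m := by positivity
    rw [mul_inv_le_iff₀ h3, one_mul]
    exact h1

lemma cpow_shift (p : Nat.Primes) (m : ℕ) (z : ℂ) :
    ((p : ℕ) : ℂ) ^ (-(m + z)) = ((p : ℕ) : ℂ) ^ (-(m : ℂ)) * ((p : ℕ) : ℂ) ^ (-z) := by
  have hp : ((p : ℕ) : ℂ) ≠ 0 := by exact_mod_cast p.prop.ne_zero
  rw [← Complex.cpow_add _ _ hp]
  congr 1
  ring

/-- the finitely many removed Euler factors -/
noncomputable def badFactor (β : Nat.Primes → J → ℂ) (S : Finset Nat.Primes) {N : ℕ}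
    (χ : DirichletCharacter ℂ N) (s : ℂ) : ℂ :=
  ∏ p ∈ S, ∏ j : J, (1 - χ ((p : ℕ) : ZMod N) * β p j * ((p : ℕ) : ℂ) ^ (-s))⁻¹

lemma eulerL_multipliable {K : Type*} [Fintype K] {c : Nat.Primes → K → ℂ}
    (hc : ∀ p j, ‖c p j‖ ≤ 1) {s : ℂ} (hs : 1 < s.re) :
    Multipliable (fun p : Nat.Primes => ∏ j : K, (1 - c p j * ((p : ℕ) : ℂ) ^ (-s))⁻¹) := by
  have hz : ∀ p j, ‖c p j * ((p : ℕ) : ℂ) ^ (-s)‖ ≤ ((p : ℕ) : ℝ) ^ (-s.re) := by
    intro p j
    rw [norm_mul, prime_cpow_norm]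
    exact mul_le_of_le_one_left (by positivity) (hc p j)
  have hz2 : ∀ p j, ‖c p j * ((p : ℕ) : ℂ) ^ (-s)‖ ≤ 1 / 2 := fun p j =>
    (hz p j).trans (prime_rpow_le_half p hs.le)
  have hne : ∀ p j, 1 - c p j * ((p : ℕ) : ℂ) ^ (-s) ≠ 0 := by
    intro p j h
    have h1 : c p j * ((p : ℕ) : ℂ) ^ (-s) = 1 := (sub_eq_zero.mp h).symm
    have := hz2 p j
    rw [h1] at this
    norm_num at this
  have hsumj : ∀ j, Summable (fun p : Nat.Primes => c p j * ((p : ℕ) : ℂ) ^ (-s)) := fun j =>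
    Summable.of_norm_bounded (summable_primes_rpow hs) (fun p => hz p j)
  have hlogj : ∀ j, Summable (fun p : Nat.Primes => -log (1 - c p j * ((p : ℕ) : ℂ) ^ (-s))) :=
    fun j => (hsumj j).clog_one_sub.neg
  have hlog : Summable (fun p : Nat.Primes =>
      ∑ j, -log (1 - c p j * ((p : ℕ) : ℂ) ^ (-s))) := summable_sum fun j _ => hlogj j
  have H := hlog.hasSum.cexp.multipliable
  refine H.congr fun p => ?_
  simp only [Function.comp_apply]
  rw [Complex.exp_sum]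
  refine Finset.prod_congr rfl fun j _ => ?_
  rw [Complex.exp_neg, Complex.exp_log (hne p j)]

lemma twistedL_eq {m : ℕ} {β : Nat.Primes → J → ℂ} {S : Finset Nat.Primes}
    (hβ : ∀ p ∉ S, ∀ j, ‖β p j‖ ≤ ((p : ℕ) : ℝ) ^ m) {N : ℕ} (χ : DirichletCharacter ℂ N)
    {z : ℂ} (hz : 1 < z.re) :
    twistedL β χ (m + z) = badFactor β S χ (m + z) *
      eulerL (fun p j => χ ((p : ℕ) : ZMod N) * nrm m β S p j) z := by
  classical
  have hc : ∀ (p : Nat.Primes) (j : J), ‖χ ((p : ℕ) : ZMod N) * nrm m β S p j‖ ≤ 1 := fun p j => by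
    rw [norm_mul]
    exact mul_le_one₀ (DirichletCharacter.norm_le_one _ _) (norm_nonneg _) (nrm_le hβ p j)
  have hm := eulerL_multipliable hc hz
  have hbad : badFactor β S χ (m + z) = ∏' p : Nat.Primes,
      (if p ∈ S then ∏ j : J, (1 - χ ((p : ℕ) : ZMod N) * β p j *
        ((p : ℕ) : ℂ) ^ (-(m + z)))⁻¹ else 1) := by
    rw [tprod_eq_prod (s := S)]
    · unfold badFactor
      exact Finset.prod_congr rfl fun p hp => by rw [if_pos hp]
    · intro p hp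
      rw [if_neg hp]
  have hmb : Multipliable (fun p : Nat.Primes =>
      (if p ∈ S then ∏ j : J, (1 - χ ((p : ℕ) : ZMod N) * β p j *
        ((p : ℕ) : ℂ) ^ (-(m + z)))⁻¹ else 1)) :=
    multipliable_of_ne_finset_one (s := S) fun p hp => by rw [if_neg hp]
  unfold eulerL
  rw [hbad, ← hmb.tprod_mul hm]
  unfold twistedL
  refine tprod_congr fun p => ?_
  by_cases hp : p ∈ S
  · rw [if_pos hp]
    have : ∏ j : J, (1 - χ ((p : ℕ) : ZMod N) * nrm m β S p j * ((p : ℕ) : ℂ) ^ (-z))⁻¹ = 1 := by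
      refine Finset.prod_eq_one fun j _ => ?_
      simp [nrm, hp]
    rw [this, mul_one]
  · rw [if_neg hp, one_mul]
    refine Finset.prod_congr rfl fun j _ => ?_
    rw [cpow_shift]
    simp only [nrm, hp, if_false]
    congr 2
    ring

lemma selfL_eq {m : ℕ} {β : Nat.Primes → J → ℂ} {S : Finset Nat.Primes}
    {z : ℂ} :
    selfL β S (2 * m + z) =
      eulerL (fun p (jk : J × J) => nrm m β S p jk.1 * (starRingEnd ℂ) (nrm m β S p jk.2)) z := by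
  classical
  unfold eulerL selfL
  have hsupp : Function.mulSupport (fun p : Nat.Primes => ∏ jk : J × J,
      (1 - nrm m β S p jk.1 * (starRingEnd ℂ) (nrm m β S p jk.2) * ((p : ℕ) : ℂ) ^ (-z))⁻¹) ⊆
      {p : Nat.Primes | p ∉ S} := by
    intro p hp
    simp only [Function.mem_mulSupport] at hp
    by_contra hpS
    simp only [Set.mem_ofPred_eq, not_not] at hpS
    apply hp
    refine Finset.prod_eq_one fun j _ => ?_
    simp [nrm, hpS]
  rw [← tprod_subtype_eq_of_mulSupport_subset hsupp]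
  refine tprod_congr fun p => ?_
  have hp : (p : Nat.Primes) ∉ S := p.2
  refine Finset.prod_congr rfl fun jk _ => ?_
  simp only [nrm, hp, if_false]
  have hp0 : (((p : Nat.Primes) : ℕ) : ℂ) ≠ 0 := by exact_mod_cast (p : Nat.Primes).prop.ne_zero
  have h1 : (starRingEnd ℂ) ((((p : Nat.Primes) : ℕ) : ℂ) ^ (-(m : ℂ))) =
      (((p : Nat.Primes) : ℕ) : ℂ) ^ (-(m : ℂ)) := by
    rw [Complex.cpow_neg, Complex.cpow_natCast]
    simp
  rw [map_mul, h1]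
  have h2 : (((p : Nat.Primes) : ℕ) : ℂ) ^ (-(2 * (m : ℂ) + z)) =
      (((p : Nat.Primes) : ℕ) : ℂ) ^ (-(m : ℂ)) * (((p : Nat.Primes) : ℕ) : ℂ) ^ (-(m : ℂ)) *
        (((p : Nat.Primes) : ℕ) : ℂ) ^ (-z) := by
    rw [← Complex.cpow_add _ _ hp0, ← Complex.cpow_add _ _ hp0]
    congr 1
    ring
  rw [h2]
  congr 2
  ring

end

end Pool.Agent.H921R2.TatePole
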