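import Pool.Agent.H921R2.TatePole.Final

set_option autoImplicit false

open Complex Filter Topology

namespace Pool.Agent.H921R2.TatePole

variable {J : Type} [Fintype J]

lemma ell_le {α : Nat.Primes → J → ℂ} (hα : ∀ p j, ‖α p j‖ ≤ 1) {N : ℕ}
    (χ : DirichletCharacter ℂ N) (τ : ℝ) {x : ℝ} (hx : 1 < x) :
    |Real.log ‖eulerL (fun p j => χ ((p : ℕ) : ZMod N) * α p j) ((x : ℂ) + τ * I)‖| ≤
      Fintype.card J * W x + Fintype.card J * C0 := by
  have h0 := (twist_log hα χ τ hx).2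
  have h1 : ∀ p, |((∑ j, α p j) * tw χ τ p).re| ≤ (Fintype.card J : ℝ) := fun p => by
    refine (Complex.abs_re_le_norm _).trans ?_
    rw [norm_mul]
    calc ‖∑ j, α p j‖ * ‖tw χ τ p‖ ≤ (Fintype.card J : ℝ) * 1 :=
          mul_le_mul (sum_norm_le hα p) (norm_tw_le _ _ _) (norm_nonneg _) (by positivity)
      _ = _ := mul_one _
  have h2 := tsum_of_norm_bounded (f := fun p => ((∑ j, α p j) * tw χ τ p).re * w x p)
    ((w_summable hx).mul_left (Fintype.card J : ℝ)).hasSum (fun p => by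
      rw [norm_mul, Real.norm_eq_abs, Real.norm_eq_abs, abs_of_nonneg (w_nonneg x p)]
      exact mul_le_mul_of_nonneg_right (h1 p) (w_nonneg x p))
  rw [Real.norm_eq_abs, tsum_mul_left] at h2
  have h2' : |∑' p, ((∑ j, α p j) * tw χ τ p).re * w x p| ≤ Fintype.card J * W x := h2
  have h3 := abs_le.mp h0
  have h4 := abs_le.mp h2'
  rw [abs_le]
  constructor <;> linarith

lemma Q_le {α : Nat.Primes → J → ℂ} (hα : ∀ p j, ‖α p j‖ ≤ 1) {x : ℝ} (hx : 1 < x) :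
    ∑' p, ‖∑ j, α p j‖ ^ 2 * w x p ≤ (Fintype.card J : ℝ) ^ 2 * W x := by
  have h : ∀ p, ‖∑ j, α p j‖ ^ 2 ≤ (Fintype.card J : ℝ) ^ 2 := fun p =>
    pow_le_pow_left₀ (norm_nonneg _) (sum_norm_le hα p) 2
  unfold W
  rw [← tsum_mul_left]
  refine Summable.tsum_le_tsum (fun p => mul_le_mul_of_nonneg_right (h p) (w_nonneg x p)) ?_
    ((w_summable hx).mul_left _)
  exact bddmul_summable hx (C := (Fintype.card J : ℝ) ^ 2) fun p => by
    rw [abs_of_nonneg (by positivity)]; exact h p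

lemma Q_nonneg {α : Nat.Primes → J → ℂ} {x : ℝ} :
    0 ≤ ∑' p, ‖∑ j, α p j‖ ^ 2 * w x p :=
  tsum_nonneg fun p => mul_nonneg (by positivity) (w_nonneg x p)

/-- finite product continuity -/
lemma badFactor_log {β : Nat.Primes → J → ℂ} {S : Finset Nat.Primes} {N : ℕ}
    (χ : DirichletCharacter ℂ N) (s : ℂ)
    (hS : ∀ p ∈ S, ∀ j, χ ((p : ℕ) : ZMod N) * β p j * ((p : ℕ) : ℂ) ^ (-s) ≠ 1) :
    ∃ B : ℝ, 0 ≤ B ∧ ∀ᶠ x : ℝ in 𝓝[>] 0, badFactor β S χ (s + x) ≠ 0 ∧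
      |Real.log ‖badFactor β S χ (s + x)‖| ≤ B := by
  have hlim : Tendsto (fun x : ℝ => badFactor β S χ (s + x)) (𝓝[>] 0) (𝓝 (badFactor β S χ s)) := by
    unfold badFactor
    refine tendsto_finset_prod _ fun p hp => tendsto_finset_prod _ fun j _ => ?_
    refine Tendsto.inv₀ ?_ (sub_ne_zero.mpr (hS p hp j).symm)
    refine Tendsto.const_sub _ (Tendsto.const_mul _ ?_)
    have hp0 : ((p : ℕ) : ℂ) ≠ 0 := by exact_mod_cast p.prop.ne_zero
    have hc : Continuous (fun x : ℝ => ((p : ℕ) : ℂ) ^ (-(s + (x : ℂ)))) := by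
      refine Continuous.const_cpow ?_ (Or.inl hp0)
      exact (continuous_const.add Complex.continuous_ofReal).neg
    have := hc.tendsto 0
    simp only [Complex.ofReal_zero, add_zero] at this
    exact this.mono_left nhdsWithin_le_nhds
  have hne : badFactor β S χ s ≠ 0 := by
    unfold badFactor
    refine Finset.prod_ne_zero_iff.mpr fun p hp => Finset.prod_ne_zero_iff.mpr fun j _ => ?_
    exact inv_ne_zero (sub_ne_zero.mpr (hS p hp j).symm)
  have hlog : Tendsto (fun x : ℝ => |Real.log ‖badFactor β S χ (s + x)‖|) (𝓝[>] 0)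
      (𝓝 |Real.log ‖badFactor β S χ s‖|) := (hlim.norm.log (by simpa using hne)).abs
  refine ⟨|Real.log ‖badFactor β S χ s‖| + 1, by positivity, ?_⟩
  filter_upwards [hlog.eventually (gt_mem_nhds (lt_add_one _)),
    hlim.eventually (isOpen_ne.mem_nhds hne)] with x hx1 hx2
  exact ⟨hx2, hx1.le⟩

/-- **Repulsion inequality.** -/
theorem repulsion (m : ℕ) (β : Nat.Primes → J → ℂ) (S : Finset Nat.Primes)
    (hβ : ∀ p ∉ S, ∀ j, ‖β p j‖ ≤ ((p : ℕ) : ℝ) ^ m)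
    {ι : Type} [Fintype ι] (N : ι → ℕ) [∀ i, NeZero (N i)]
    (χ : ∀ i, DirichletCharacter ℂ (N i)) (τ : ι → ℝ)
    (hne : ∀ i j, i ≠ j → τ i ≠ τ j ∨
      ∃ n : ℕ, n.Coprime (N i) ∧ n.Coprime (N j) ∧ χ i (n : ZMod (N i)) ≠ χ j (n : ZMod (N j)))
    (hS : ∀ i, ∀ p ∈ S, ∀ j,
      χ i ((p : ℕ) : ZMod (N i)) * β p j * ((p : ℕ) : ℂ) ^ (-((m : ℂ) + 1 + τ i * I)) ≠ 1) :
    ∃ C : ℝ, ∀ᶠ x : ℝ in 𝓝[>] 0,
      ∑ i, (Real.log ‖twistedL β (χ i) ((m : ℂ) + 1 + τ i * I + x)‖) ^ 2 ≤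
        Real.log (1 / x) * Real.log ‖selfL β S (2 * (m : ℂ) + 1 + x)‖ + C * Real.log (1 / x) := by
  classical
  set T : ℝ := (Fintype.card J : ℝ) with hT
  have hT0 : 0 ≤ T := by positivity
  obtain ⟨C1, hC1⟩ := main_W (nrm_le hβ) N χ τ hne
  obtain ⟨C2, hC2⟩ := W_sub_Lam_bdd
  have hbad : ∀ i, ∃ B : ℝ, 0 ≤ B ∧ ∀ᶠ x : ℝ in 𝓝[>] 0,
      badFactor β S (χ i) ((m : ℂ) + 1 + τ i * I + x) ≠ 0 ∧
      |Real.log ‖badFactor β S (χ i) ((m : ℂ) + 1 + τ i * I + x)‖| ≤ B :=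
    fun i => badFactor_log (χ i) _ (hS i)
  choose B hB0 hB using hbad
  have hBall : ∀ᶠ x : ℝ in 𝓝[>] 0, ∀ i,
      badFactor β S (χ i) ((m : ℂ) + 1 + τ i * I + x) ≠ 0 ∧
      |Real.log ‖badFactor β S (χ i) ((m : ℂ) + 1 + τ i * I + x)‖| ≤ B i := eventually_all.mpr hB
  have e1 := tendsto_one_add.eventually hC1
  have e2 := tendsto_one_add.eventually hC2
  have e3 := log_one_div_tendsto.eventually_ge_atTop (|C2| + 1)
  have hC0 := C0_nonneg
  set P : ℝ := ∑ i, B i with hP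
  have hP0 : 0 ≤ P := Finset.sum_nonneg fun i _ => hB0 i
  set n : ℝ := (Fintype.card ι : ℝ) with hn
  have hn0 : 0 ≤ n := by positivity
  -- constants
  refine ⟨T ^ 2 * C0 + |C2| * T ^ 2 * 2 + |C1| * 2 + n * (2 * P * (T * 2 + T * C0) + P ^ 2), ?_⟩
  filter_upwards [e1, e2, e3, hBall, self_mem_nhdsWithin] with x h1 h2 h3 h4 h5
  have hx0 : (0 : ℝ) < x := h5
  have hx1 : 1 < 1 + x := by linarith
  set Λ : ℝ := Real.log (1 / x) with hΛ
  have hLam : Lam (1 + x) = Λ := by unfold Lam; rw [add_sub_cancel_left]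
  rw [hLam] at h2
  set Wx : ℝ := W (1 + x) with hWx
  have hW0 : 0 ≤ Wx := W_nonneg _
  have hΛ1 : 1 ≤ Λ := by
    have := abs_nonneg C2
    linarith
  have hWΛ : Wx ≤ Λ + |C2| := by
    have := (abs_le.mp h2).2
    have := le_abs_self C2
    linarith
  have hWΛ2 : Wx ≤ 2 * Λ := by linarith
  set Q : ℝ := ∑' p, ‖∑ j, nrm m β S p j‖ ^ 2 * w (1 + x) p with hQ
  have hQ0 : 0 ≤ Q := Q_nonneg
  have hQW : Q ≤ T ^ 2 * Wx := Q_le (nrm_le hβ) hx1
  -- self product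
  set σ : ℝ := Real.log ‖selfL β S (2 * (m : ℂ) + 1 + x)‖ with hσ
  have hQσ : Q ≤ σ + T ^ 2 * C0 := by
    have h6 := (self_log (nrm_le (m := m) (S := S) hβ) hx1).2
    have h7 : selfL β S (2 * (m : ℂ) + 1 + x) =
        eulerL (fun p (jk : J × J) => nrm m β S p jk.1 * (starRingEnd ℂ) (nrm m β S p jk.2))
          ((1 + x : ℝ) : ℂ) := by
      rw [← selfL_eq (m := m)]
      congr 1
      push_cast
      ring
    rw [hσ, h7]
    have := (abs_le.mp h6).1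
    linarith
  -- the twisted functions
  have hF : ∀ i, (Real.log ‖twistedL β (χ i) ((m : ℂ) + 1 + τ i * I + x)‖) ^ 2 ≤
      (Real.log ‖eulerL (fun p j => χ i ((p : ℕ) : ZMod (N i)) * nrm m β S p j)
        (((1 + x : ℝ) : ℂ) + τ i * I)‖) ^ 2 + (2 * P * (T * 2 + T * C0) + P ^ 2) * Λ := by
    intro i
    have hre : (1 : ℝ) < (((1 + x : ℝ) : ℂ) + τ i * I).re := by
      simp only [Complex.add_re, Complex.ofReal_re, Complex.mul_re, Complex.I_re, Complex.I_im,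
        Complex.ofReal_im]
      linarith
    have h6 : twistedL β (χ i) ((m : ℂ) + 1 + τ i * I + x) =
        badFactor β S (χ i) ((m : ℂ) + 1 + τ i * I + x) *
        eulerL (fun p j => χ i ((p : ℕ) : ZMod (N i)) * nrm m β S p j)
          (((1 + x : ℝ) : ℂ) + τ i * I) := by
      have h7 := twistedL_eq hβ (χ i) hre
      have h8 : (m : ℂ) + (((1 + x : ℝ) : ℂ) + τ i * I) = (m : ℂ) + 1 + τ i * I + x := by
        push_cast; ring
      rw [h8] at h7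
      exact h7
    have hE := (twist_log (nrm_le (m := m) (S := S) hβ) (χ i) (τ i) hx1).1
    rw [h6, norm_mul, Real.log_mul (norm_ne_zero_iff.mpr (h4 i).1) (norm_ne_zero_iff.mpr hE)]
    set b : ℝ := Real.log ‖badFactor β S (χ i) ((m : ℂ) + 1 + τ i * I + x)‖
    set ℓ : ℝ := Real.log ‖eulerL (fun p j => χ i ((p : ℕ) : ZMod (N i)) * nrm m β S p j)
        (((1 + x : ℝ) : ℂ) + τ i * I)‖ with hℓ
    have hb : |b| ≤ P := (h4 i).2.trans
      (Finset.single_le_sum (f := B) (fun i _ => hB0 i) (Finset.mem_univ i))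
    have hl : |ℓ| ≤ T * Wx + T * C0 := ell_le (nrm_le hβ) (χ i) (τ i) hx1
    have hl2 : |ℓ| ≤ (T * 2 + T * C0) * Λ := by
      refine hl.trans ?_
      have : T * C0 ≤ T * C0 * Λ := le_mul_of_one_le_right (by positivity) hΛ1
      have : T * Wx ≤ T * (2 * Λ) := mul_le_mul_of_nonneg_left hWΛ2 hT0
      linarith
    have h9 : (b + ℓ) ^ 2 = ℓ ^ 2 + 2 * (b * ℓ) + b ^ 2 := by ring
    have h10 : b * ℓ ≤ P * ((T * 2 + T * C0) * Λ) := by
      refine (le_abs_self _).trans ?_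
      rw [abs_mul]
      exact mul_le_mul hb hl2 (abs_nonneg _) hP0
    have h11 : b ^ 2 ≤ P ^ 2 := by
      rw [← sq_abs b]
      exact pow_le_pow_left₀ (abs_nonneg _) hb 2
    have h12 : P ^ 2 ≤ P ^ 2 * Λ := le_mul_of_one_le_right (by positivity) hΛ1
    rw [h9]
    nlinarith
  have hsum := Finset.sum_le_sum fun i (_ : i ∈ Finset.univ) => hF i
  rw [Finset.sum_add_distrib] at hsum
  simp only [Finset.sum_const, Finset.card_univ, nsmul_eq_mul] at hsum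
  have h20 : Q * Wx ≤ Λ * σ + (T ^ 2 * C0 + |C2| * T ^ 2 * 2) * Λ := by
    calc Q * Wx ≤ Q * (Λ + |C2|) := mul_le_mul_of_nonneg_left hWΛ hQ0
      _ = Λ * Q + |C2| * Q := by ring
      _ ≤ Λ * (σ + T ^ 2 * C0) + |C2| * (T ^ 2 * (2 * Λ)) := by
          refine add_le_add (mul_le_mul_of_nonneg_left hQσ (by linarith)) ?_
          refine mul_le_mul_of_nonneg_left ?_ (abs_nonneg _)
          exact hQW.trans (mul_le_mul_of_nonneg_left hWΛ2 (by positivity))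
      _ = Λ * σ + (T ^ 2 * C0 + |C2| * T ^ 2 * 2) * Λ := by ring
  have h21 : C1 * Wx ≤ |C1| * 2 * Λ := by
    calc C1 * Wx ≤ |C1| * Wx := mul_le_mul_of_nonneg_right (le_abs_self _) hW0
      _ ≤ |C1| * (2 * Λ) := mul_le_mul_of_nonneg_left hWΛ2 (abs_nonneg _)
      _ = _ := by ring
  have h22 := h1
  calc _ ≤ _ := hsum
    _ ≤ (Q * Wx + C1 * Wx) + n * ((2 * P * (T * 2 + T * C0) + P ^ 2) * Λ) := by
        refine add_le_add ?_ le_rfl
        exact h22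
    _ ≤ _ := by nlinarith

/-- size of the self product -/
theorem self_le (m : ℕ) (β : Nat.Primes → J → ℂ) (S : Finset Nat.Primes)
    (hβ : ∀ p ∉ S, ∀ j, ‖β p j‖ ≤ ((p : ℕ) : ℝ) ^ m) :
    ∃ C : ℝ, ∀ᶠ x : ℝ in 𝓝[>] 0,
      Real.log ‖selfL β S (2 * (m : ℂ) + 1 + x)‖ ≤
        (Fintype.card J : ℝ) ^ 2 * Real.log (1 / x) + C := by
  obtain ⟨C2, hC2⟩ := W_sub_Lam_bdd
  have e2 := tendsto_one_add.eventually hC2
  refine ⟨(Fintype.card J : ℝ) ^ 2 * C0 + (Fintype.card J : ℝ) ^ 2 * C2, ?_⟩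
  filter_upwards [e2, self_mem_nhdsWithin] with x h2 h5
  have hx0 : (0 : ℝ) < x := h5
  have hx1 : 1 < 1 + x := by linarith
  have hLam : Lam (1 + x) = Real.log (1 / x) := by unfold Lam; rw [add_sub_cancel_left]
  rw [hLam] at h2
  have h6 := (self_log (nrm_le (m := m) (S := S) hβ) hx1).2
  have h7 : selfL β S (2 * (m : ℂ) + 1 + x) =
      eulerL (fun p (jk : J × J) => nrm m β S p jk.1 * (starRingEnd ℂ) (nrm m β S p jk.2))
        ((1 + x : ℝ) : ℂ) := by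
    rw [← selfL_eq (m := m)]
    congr 1
    push_cast
    ring
  rw [h7]
  have h8 := (abs_le.mp h6).2
  have h9 := Q_le (nrm_le (m := m) (S := S) hβ) hx1
  have h10 := (abs_le.mp h2).2
  have h11 : (Fintype.card J : ℝ) ^ 2 * W (1 + x) ≤
      (Fintype.card J : ℝ) ^ 2 * (Real.log (1 / x) + C2) :=
    mul_le_mul_of_nonneg_left (by linarith) (by positivity)
  linarith

end Pool.Agent.H921R2.TatePole
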