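import Pool.Agent.H921R2.TatePole.Density
import Pool.Agent.H921R2.TatePole.Repulsion

set_option autoImplicit false
set_option linter.unusedSectionVars false

open Complex Filter Topology NumberField IsDedekindDomain

namespace Pool.Agent.H921R2.TatePole

section
variable {K : Type} [Field K] [NumberField K] {J : Type} [Fintype J]

lemma nm_cpow_shift (v : HeightOneSpectrum (𝓞 K)) (m : ℕ) (z : ℂ) :
    ((nm v : ℕ) : ℂ) ^ (-(m + z)) = ((nm v : ℕ) : ℂ) ^ (-(m : ℂ)) * ((nm v : ℕ) : ℂ) ^ (-z) := by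
  have hp : ((nm v : ℕ) : ℂ) ≠ 0 := by exact_mod_cast nm_ne_zero v
  rw [← Complex.cpow_add _ _ hp]
  congr 1
  ring

lemma above_finite (S : Finset Nat.Primes) : {v : HeightOneSpectrum (𝓞 K) | below v ∈ S}.Finite := by
  classical
  have : {v : HeightOneSpectrum (𝓞 K) | below v ∈ S} =
      ⋃ p ∈ S, {v : HeightOneSpectrum (𝓞 K) | below v = p} := by
    ext v
    simp
  rw [this]
  refine Set.Finite.biUnion S.finite_toSet fun p _ => ?_
  exact Set.finite_coe_iff.mp (fiber_finite (K := K) p)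

variable (K) in
/-- the finite set of primes above `S` -/
noncomputable def above (S : Finset Nat.Primes) : Finset (HeightOneSpectrum (𝓞 K)) :=
  (above_finite (K := K) S).toFinset

lemma mem_above {S : Finset Nat.Primes} {v : HeightOneSpectrum (𝓞 K)} :
    v ∈ above K S ↔ below v ∈ S := by
  unfold above
  simp

/-- the removed Euler factors over `K` -/
noncomputable def kBad (γ : HeightOneSpectrum (𝓞 K) → J → ℂ) (S : Finset Nat.Primes) (s : ℂ) : ℂ :=
  ∏ v ∈ above K S, ∏ j : J, (1 - γ v j * ((nm v : ℕ) : ℂ) ^ (-s))⁻¹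

lemma kBad_log {γ : HeightOneSpectrum (𝓞 K) → J → ℂ} {S : Finset Nat.Primes} (s : ℂ)
    (hS : ∀ v, below v ∈ S → ∀ j, γ v j * ((nm v : ℕ) : ℂ) ^ (-s) ≠ 1) :
    ∃ B : ℝ, 0 ≤ B ∧ ∀ᶠ x : ℝ in 𝓝[>] 0, kBad γ S (s + x) ≠ 0 ∧
      |Real.log ‖kBad γ S (s + x)‖| ≤ B := by
  have hlim : Tendsto (fun x : ℝ => kBad γ S (s + x)) (𝓝[>] 0) (𝓝 (kBad γ S s)) := by
    unfold kBad
    refine tendsto_finsetProd _ fun v hv => tendsto_finsetProd _ fun j _ => ?_
    refine Tendsto.inv₀ ?_ (sub_ne_zero.mpr (hS v (mem_above.mp hv) j).symm)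
    refine Tendsto.const_sub _ (Tendsto.const_mul _ ?_)
    have hp0 : ((nm v : ℕ) : ℂ) ≠ 0 := by exact_mod_cast nm_ne_zero v
    have hc : Continuous (fun x : ℝ => ((nm v : ℕ) : ℂ) ^ (-(s + (x : ℂ)))) := by
      refine Continuous.const_cpow ?_ (Or.inl hp0)
      exact (continuous_const.add Complex.continuous_ofReal).neg
    have := hc.tendsto 0
    simp only [Complex.ofReal_zero, add_zero] at this
    exact this.mono_left nhdsWithin_le_nhds
  have hne : kBad γ S s ≠ 0 := by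
    unfold kBad
    refine Finset.prod_ne_zero_iff.mpr fun v hv => Finset.prod_ne_zero_iff.mpr fun j _ => ?_
    exact inv_ne_zero (sub_ne_zero.mpr (hS v (mem_above.mp hv) j).symm)
  have hlog : Tendsto (fun x : ℝ => |Real.log ‖kBad γ S (s + x)‖|) (𝓝[>] 0)
      (𝓝 |Real.log ‖kBad γ S s‖|) := (hlim.norm.log (by simpa using hne)).abs
  refine ⟨|Real.log ‖kBad γ S s‖| + 1, by positivity, ?_⟩
  filter_upwards [hlog.eventually (gt_mem_nhds (lt_add_one _)),
    hlim.eventually (isOpen_ne.mem_nhds hne)] with x hx1 hx2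
  exact ⟨hx2, hx1.le⟩

lemma kL_eq {m : ℕ} {β : Nat.Primes → J → ℂ} {S : Finset Nat.Primes}
    (hβ : ∀ p ∉ S, ∀ j, ‖β p j‖ ≤ ((p : ℕ) : ℝ) ^ m)
    {γ : HeightOneSpectrum (𝓞 K) → J → ℂ}
    (hγ : ∀ v, below v ∉ S → ∀ j, γ v j = β (below v) j ^ deg v)
    {z : ℂ} (hz : 1 < z.re) :
    kL γ (m + z) = kBad γ S (m + z) *
      kL (K := K) (fun v j => nrm m β S (below v) j ^ deg v) z := by
  classical
  have hc : ∀ (v : HeightOneSpectrum (𝓞 K)) (j : J), ‖nrm m β S (below v) j ^ deg v‖ ≤ 1 :=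
    fun v j => by
      rw [norm_pow]
      exact pow_le_one₀ (norm_nonneg _) (nrm_le hβ _ _)
  have hm := kL_multipliable hc hz
  have hbad : kBad γ S (m + z) = ∏' v : HeightOneSpectrum (𝓞 K),
      (if v ∈ above K S then ∏ j : J, (1 - γ v j * ((nm v : ℕ) : ℂ) ^ (-(m + z)))⁻¹ else 1) := by
    rw [tprod_eq_prod (s := above K S)]
    · unfold kBad
      exact Finset.prod_congr rfl fun v hv => by rw [if_pos hv]
    · intro v hv
      rw [if_neg hv]
  have hmb : Multipliable (fun v : HeightOneSpectrum (𝓞 K) =>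
      (if v ∈ above K S then ∏ j : J, (1 - γ v j * ((nm v : ℕ) : ℂ) ^ (-(m + z)))⁻¹ else 1)) :=
    multipliable_of_ne_finset_one (s := above K S) fun v hv => by rw [if_neg hv]
  have hkL : kL (K := K) (fun v j => nrm m β S (below v) j ^ deg v) z =
      ∏' v : HeightOneSpectrum (𝓞 K),
        ∏ j : J, (1 - nrm m β S (below v) j ^ deg v * ((nm v : ℕ) : ℂ) ^ (-z))⁻¹ := rfl
  rw [hbad, hkL, ← hmb.tprod_mul hm]
  unfold kL
  refine tprod_congr fun v => ?_
  have hnm : (Ideal.absNorm v.asIdeal) = nm v := rfl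
  rw [hnm]
  obtain ⟨h1, h2, _⟩ := nm_eq v
  by_cases hv : v ∈ above K S
  · rw [if_pos hv]
    have : ∏ j : J, (1 - nrm m β S (below v) j ^ deg v * ((nm v : ℕ) : ℂ) ^ (-z))⁻¹ = 1 := by
      refine Finset.prod_eq_one fun j _ => ?_
      have h3 : nrm m β S (below v) j = 0 := by
        unfold nrm
        rw [if_pos (mem_above.mp hv)]
      rw [h3, zero_pow h2.ne']
      simp
    rw [this, mul_one]
  · rw [if_neg hv, one_mul]
    have hvS : below v ∉ S := fun h => hv (mem_above.mpr h)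
    refine Finset.prod_congr rfl fun j _ => ?_
    rw [nm_cpow_shift, hγ v hvS j]
    have h3 : nrm m β S (below v) j = β (below v) j * (((below v : Nat.Primes) : ℕ) : ℂ) ^ (-(m : ℂ)) := by
      unfold nrm
      rw [if_neg hvS]
    have h4 : ((nm v : ℕ) : ℂ) ^ (-(m : ℂ)) =
        ((((below v : Nat.Primes) : ℕ) : ℂ) ^ (-(m : ℂ))) ^ deg v := by
      rw [h1]
      push_cast
      rw [Complex.cpow_neg, Complex.cpow_neg, Complex.cpow_natCast, Complex.cpow_natCast, inv_pow]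
      congr 1
      rw [← pow_mul, ← pow_mul, mul_comm]
    rw [h3, h4, mul_pow]
    congr 2
    ring

/-- **Base change for a radical field, with bad factors.** -/
theorem radical_base_change (m : ℕ) (β : Nat.Primes → J → ℂ) (S : Finset Nat.Primes)
    (hβ : ∀ p ∉ S, ∀ j, ‖β p j‖ ≤ ((p : ℕ) : ℝ) ^ m)
    (hβS : ∀ p ∈ S, ∀ j, β p j * ((p : ℕ) : ℂ) ^ (-((m : ℂ) + 1)) ≠ 1)
    {q : ℕ} (hq : q.Prime) (hK : Module.finrank ℚ K = q)
    (θ : K) (hθ : θ ^ q ∈ Set.range (algebraMap ℚ K)) (hθ' : θ ∉ Set.range (algebraMap ℚ K))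
    (γ : HeightOneSpectrum (𝓞 K) → J → ℂ)
    (hγ : ∀ v, below v ∉ S → ∀ j, γ v j = β (below v) j ^ deg v)
    (hγS : ∀ v, below v ∈ S → ∀ j, γ v j * ((nm v : ℕ) : ℂ) ^ (-((m : ℂ) + 1)) ≠ 1) :
    ∃ C : ℝ, ∀ᶠ x : ℝ in 𝓝[>] 0,
      |Real.log ‖kL γ ((m : ℂ) + 1 + x)‖ - Real.log ‖eulerL β ((m : ℂ) + 1 + x)‖| ≤
        2 * Fintype.card J / q * Real.log (1 / x) + C := by
  classical
  -- an integral generator
  obtain ⟨r, hr⟩ := hθ
  have hq0 : q ≠ 0 := hq.ne_zero
  set d : ℕ := r.den with hd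
  have hd0 : (d : ℤ) ≠ 0 := by exact_mod_cast r.den_ne_zero
  set a : ℤ := (d : ℤ) ^ (q - 1) * r.num with ha
  have hpow : ((d : K) * θ) ^ q = ((a : ℤ) : K) := by
    rw [mul_pow, ← hr, ha]
    have h1 : (d : K) ^ q = (d : K) ^ (q - 1) * (d : K) := by
      rw [← pow_succ, Nat.sub_add_cancel hq.one_lt.le]
    rw [h1]
    push_cast
    have h2 : (d : K) * algebraMap ℚ K r = (r.num : K) := by
      have h3 : (d : ℚ) * r = r.num := by
        rw [hd]
        exact Rat.den_mul_eq_num r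
      have h4 := congrArg (algebraMap ℚ K) h3
      simpa using h4
    rw [mul_assoc, h2]
  have hintθ : IsIntegral ℤ ((d : K) * θ) := by
    refine IsIntegral.of_pow (n := q) hq.pos ?_
    rw [hpow]
    exact isIntegral_algebraMap (R := ℤ) (A := K) (x := a)
  set Θ : 𝓞 K := ⟨(d : K) * θ, hintθ⟩ with hΘ
  have hΘc : (Θ : K) = (d : K) * θ := rfl
  have hΘpow : Θ ^ q = (a : 𝓞 K) := by
    apply RingOfIntegers.ext
    have h5 : ((Θ ^ q : 𝓞 K) : K) = (Θ : K) ^ q := by simp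
    rw [h5, hΘc, hpow]
    simp
  have hadj : Algebra.adjoin ℚ {(Θ : K)} = ⊤ := by
    have hsimple := Subalgebra.isSimpleOrder_of_finrank_prime ℚ K (by rw [hK]; exact hq)
    rcases hsimple.eq_bot_or_eq_top (Algebra.adjoin ℚ {(Θ : K)}) with h | h
    · exfalso
      have h1 : (Θ : K) ∈ Algebra.adjoin ℚ {(Θ : K)} := Algebra.subset_adjoin rfl
      rw [h, Algebra.mem_bot] at h1
      obtain ⟨t, ht⟩ := h1
      apply hθ'
      refine ⟨t / d, ?_⟩
      rw [map_div₀, ht, hΘc]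
      have hd1 : (d : K) ≠ 0 := by exact_mod_cast r.den_ne_zero
      simp only [map_natCast]
      field_simp
    · exact h
  obtain ⟨C1, hC1⟩ := D0_le hadj hq hK hΘpow
  obtain ⟨C2, hC2⟩ := baseChange (K := K) (nrm_le hβ)
  obtain ⟨B1, hB1, hB1'⟩ := kBad_log (K := K) (γ := γ) (S := S) ((m : ℂ) + 1) hγS
  obtain ⟨B2, hB2, hB2'⟩ := badFactor_log (β := β) (S := S) (1 : DirichletCharacter ℂ 1)
    ((m : ℂ) + 1) (fun p hp j => by
      have := hβS p hp j
      have h1 : (1 : DirichletCharacter ℂ 1) ((p : ℕ) : ZMod 1) = 1 := by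
        rw [MulChar.one_apply (isUnit_of_subsingleton _)]
      rw [h1, one_mul]
      exact this)
  refine ⟨2 * Fintype.card J * C1 + C2 + B1 + B2, ?_⟩
  filter_upwards [tendsto_one_add.eventually hC1, tendsto_one_add.eventually hC2, hB1', hB2',
    self_mem_nhdsWithin] with x h1 h2 h3 h4 hx
  have hx0 : (0 : ℝ) < x := hx
  have hx1 : (1 : ℝ) < ((1 + x : ℝ) : ℂ).re := by
    rw [Complex.ofReal_re]; linarith
  have hLam : Lam (1 + x) = Real.log (1 / x) := by unfold Lam; rw [add_sub_cancel_left]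
  rw [hLam] at h1
  have es : (m : ℂ) + 1 + x = (m : ℂ) + ((1 + x : ℝ) : ℂ) := by push_cast; ring
  have hE : eulerL β ((m : ℂ) + 1 + x) = twistedL β (1 : DirichletCharacter ℂ 1) ((m : ℂ) + 1 + x) := by
    unfold eulerL twistedL
    refine tprod_congr fun p => Finset.prod_congr rfl fun j _ => ?_
    rw [MulChar.one_apply (isUnit_of_subsingleton _), one_mul]
  have hγ1 : ∀ (v : HeightOneSpectrum (𝓞 K)) (j : J), ‖nrm m β S (below v) j ^ deg v‖ ≤ 1 :=
    fun v j => by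
      rw [norm_pow]
      exact pow_le_one₀ (norm_nonneg _) (nrm_le hβ _ _)
  have hKne := (kL_log hγ1 (x := 1 + x) (by linarith)).1
  have hα : ∀ (p : Nat.Primes) (j : J),
      ‖(1 : DirichletCharacter ℂ 1) ((p : ℕ) : ZMod 1) * nrm m β S p j‖ ≤ 1 := fun p j => by
    rw [MulChar.one_apply (isUnit_of_subsingleton _), one_mul]; exact nrm_le hβ p j
  have hQne := (eulerL_log hα hx1).1
  have hfun : (fun (p : Nat.Primes) (j : J) =>
      (1 : DirichletCharacter ℂ 1) ((p : ℕ) : ZMod 1) * nrm m β S p j) = nrm m β S := by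
    funext p j
    rw [MulChar.one_apply (isUnit_of_subsingleton _), one_mul]
  rw [hE]
  rw [es] at h3 h4 ⊢
  rw [kL_eq hβ hγ hx1, twistedL_eq hβ _ hx1, norm_mul, norm_mul,
    Real.log_mul (norm_ne_zero_iff.mpr h3.1) (norm_ne_zero_iff.mpr hKne),
    Real.log_mul (norm_ne_zero_iff.mpr h4.1) (norm_ne_zero_iff.mpr hQne)]
  rw [hfun]
  have k1 := abs_le.mp h2
  have k3 := abs_le.mp h3.2
  have k4 := abs_le.mp h4.2
  have hT : (0 : ℝ) ≤ 2 * Fintype.card J := by positivity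
  have k5 := mul_le_mul_of_nonneg_left h1 hT
  have e5 : 2 * (Fintype.card J : ℝ) * (1 / q * Real.log (1 / x) + C1) =
      2 * Fintype.card J / q * Real.log (1 / x) + 2 * Fintype.card J * C1 := by ring
  rw [e5] at k5
  rw [abs_le]
  constructor
  · linarith [k1.1, k3.1, k4.2]
  · linarith [k1.2, k3.2, k4.1]

end

end Pool.Agent.H921R2.TatePole
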