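import Pool.Agent.H921R2.TatePole.Bessel2
import Pool.Agent.H921R2.TatePole.FinalK

set_option autoImplicit false
set_option linter.unusedSectionVars false

open Complex Filter Topology NumberField IsDedekindDomain
open scoped TensorProduct

namespace Pool.Agent.H921R2.TatePole

lemma tendsto_sub_one : Tendsto (fun x : ℝ => x - 1) (𝓝[>] 1) (𝓝[>] 0) := by
  rw [tendsto_nhdsWithin_iff]
  constructor
  · have : Tendsto (fun x : ℝ => x - 1) (𝓝 1) (𝓝 (1 - 1)) := tendsto_id.sub_const 1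
    simpa using this.mono_left nhdsWithin_le_nhds
  · filter_upwards [self_mem_nhdsWithin] with x hx
    have hx' : (1 : ℝ) < x := hx
    show 0 < x - 1
    linarith

lemma Bdd.of_shift {f : ℝ → ℝ} (h : ∃ C : ℝ, ∀ᶠ x : ℝ in 𝓝[>] 0, |f (1 + x)| ≤ C) : Bdd f := by
  obtain ⟨C, hC⟩ := h
  refine ⟨C, ?_⟩
  filter_upwards [tendsto_sub_one.eventually hC] with x hx
  rwa [add_sub_cancel] at hx

section
variable {K : Type} [Field K] [NumberField K] {J : Type} [Fintype J]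

/-- the prime sums of the L-function over `ℚ` -/
lemma Q_sum {α : Nat.Primes → J → ℂ} (hα : ∀ p j, ‖α p j‖ ≤ 1) :
    Bdd (fun x : ℝ => Real.log ‖eulerL α (x : ℂ)‖ -
      ∑' p : Nat.Primes, ((∑ j, α p j).re * 1) * w x p) := by
  refine ⟨Fintype.card J * C0, ?_⟩
  filter_upwards [self_mem_nhdsWithin] with x hx1
  have hx : 1 < x := hx1
  have hx' : (1 : ℝ) < ((x : ℂ)).re := by simpa using hx
  have hQ := (eulerL_log hα hx').2
  have hsQ : (∑' p : Nat.Primes, (∑ j, α p j) * ((p : ℕ) : ℂ) ^ (-(x : ℂ))).re =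
      ∑' p : Nat.Primes, ((∑ j, α p j).re * 1) * w x p := by
    have e : ∀ p : Nat.Primes, (∑ j, α p j) * ((p : ℕ) : ℂ) ^ (-(x : ℂ)) =
        (∑ j, α p j) * ((w x p : ℝ) : ℂ) := by
      intro p
      unfold w
      rw [Complex.ofReal_cpow (by positivity)]
      simp
    rw [tsum_congr e]
    have hs : Summable (fun p : Nat.Primes => (∑ j, α p j) * ((w x p : ℝ) : ℂ)) := by
      refine Summable.of_norm_bounded ((w_summable hx).mul_left (Fintype.card J : ℝ)) fun p => ?_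
      rw [norm_mul, Complex.norm_real, Real.norm_eq_abs, abs_of_nonneg (w_nonneg x p)]
      exact mul_le_mul_of_nonneg_right (sum_norm_le hα p) (w_nonneg x p)
    rw [Complex.re_tsum hs]
    exact tsum_congr fun p => by rw [Complex.re_mul_ofReal, mul_one]
  rw [hsQ] at hQ
  exact hQ

/-- the prime sums of the L-function over `K` -/
lemma K_sum {α : Nat.Primes → J → ℂ} (hα : ∀ p j, ‖α p j‖ ≤ 1) :
    Bdd (fun x : ℝ => Real.log ‖kL (K := K) (fun v j => α (below v) j ^ deg v) (x : ℂ)‖ -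
      ∑' p : Nat.Primes, ((∑ j, α p j).re * (R K p : ℝ)) * w x p) := by
  classical
  set T : ℝ := (Fintype.card J : ℝ) with hT
  refine ⟨T * CK K + T * Module.finrank ℚ K * C0, ?_⟩
  filter_upwards [self_mem_nhdsWithin] with x hx1
  have hx : 1 < x := hx1
  have hγ : ∀ (v : HeightOneSpectrum (𝓞 K)) (j : J), ‖α (below v) j ^ deg v‖ ≤ 1 := fun v j => by
    rw [norm_pow]
    exact pow_le_one₀ (norm_nonneg _) (hα _ _)
  have hK := (kL_log hγ hx).2
  have hgb : ∀ v : HeightOneSpectrum (𝓞 K), |(∑ j, α (below v) j ^ deg v).re| ≤ T := by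
    intro v
    refine (Complex.abs_re_le_norm _).trans ((norm_sum_le _ _).trans ?_)
    calc ∑ j, ‖α (below v) j ^ deg v‖ ≤ ∑ _j : J, (1 : ℝ) := Finset.sum_le_sum fun j _ => hγ v j
      _ = Fintype.card J := by simp
  have hd := deg_two_bound (K := K) hx hgb
  have hfib : ∀ p : Nat.Primes, (∑ v : {v : HeightOneSpectrum (𝓞 K) // below v = p},
      if deg v.1 = 1 then (∑ j, α (below v.1) j ^ deg v.1).re else 0) =
      (∑ j, α p j).re * (R K p : ℝ) := by
    intro p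
    rw [mul_comm]
    unfold R
    rw [Finset.card_filter]
    push_cast
    rw [Finset.sum_mul]
    refine Finset.sum_congr rfl fun v _ => ?_
    split_ifs with h
    · rw [h, v.2]; simp
    · simp
  simp only [hfib] at hd
  have k1 := abs_le.mp hK
  have k3 := abs_le.mp hd
  rw [abs_le]
  constructor
  · linarith [k1.1, k3.1]
  · linarith [k1.2, k3.2]

lemma K_sub_Q_sum {α : Nat.Primes → J → ℂ} (hα : ∀ p j, ‖α p j‖ ≤ 1) :
    Bdd (fun x : ℝ => Real.log ‖kL (K := K) (fun v j => α (below v) j ^ deg v) (x : ℂ)‖ -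
      Real.log ‖eulerL α (x : ℂ)‖ -
      ∑' p : Nat.Primes, ((∑ j, α p j).re * ((R K p : ℝ) - 1)) * w x p) := by
  refine ((K_sum (K := K) hα).sub (Q_sum hα)).congr fun x hx => ?_
  have hb : ∀ p, |(∑ j, α p j).re| ≤ (Fintype.card J : ℝ) := fun p =>
    (Complex.abs_re_le_norm _).trans (sum_norm_le hα p)
  have hs1 : Summable (fun p : Nat.Primes => ((∑ j, α p j).re * (R K p : ℝ)) * w x p) :=
    bddmul_summable hx (C := Fintype.card J * Module.finrank ℚ K) fun p => by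
      rw [abs_mul]
      exact mul_le_mul (hb p) (R_abs p) (abs_nonneg _) (by positivity)
  have hs2 : Summable (fun p : Nat.Primes => ((∑ j, α p j).re * 1) * w x p) :=
    bddmul_summable hx (C := Fintype.card J) fun p => by rw [mul_one]; exact hb p
  have e : ∀ p : Nat.Primes, ((∑ j, α p j).re * ((R K p : ℝ) - 1)) * w x p =
      ((∑ j, α p j).re * (R K p : ℝ)) * w x p - ((∑ j, α p j).re * 1) * w x p := fun p => by ring
  rw [tsum_congr e, Summable.tsum_sub hs1 hs2]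
  ring

/-- removing the bad factors over `ℚ` -/
lemma Q_shift {m : ℕ} {β : Nat.Primes → J → ℂ} {S : Finset Nat.Primes}
    (hβ : ∀ p ∉ S, ∀ j, ‖β p j‖ ≤ ((p : ℕ) : ℝ) ^ m)
    (hβS : ∀ p ∈ S, ∀ j, β p j * ((p : ℕ) : ℂ) ^ (-((m : ℂ) + 1)) ≠ 1) :
    Bdd (fun x : ℝ => Real.log ‖eulerL β ((m : ℂ) + x)‖ -
      Real.log ‖eulerL (nrm m β S) (x : ℂ)‖) := by
  apply Bdd.of_shift
  obtain ⟨B2, hB2, hB2'⟩ := badFactor_log (β := β) (S := S) (1 : DirichletCharacter ℂ 1)
    ((m : ℂ) + 1) (fun p hp j => by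
      have := hβS p hp j
      have h1 : (1 : DirichletCharacter ℂ 1) ((p : ℕ) : ZMod 1) = 1 := by
        rw [MulChar.one_apply (isUnit_of_subsingleton _)]
      rw [h1, one_mul]
      exact this)
  refine ⟨B2, ?_⟩
  filter_upwards [hB2', self_mem_nhdsWithin] with x h4 hx
  have hx0 : (0 : ℝ) < x := hx
  have hx1 : (1 : ℝ) < ((1 + x : ℝ) : ℂ).re := by
    rw [Complex.ofReal_re]; linarith
  have es : (m : ℂ) + 1 + x = (m : ℂ) + ((1 + x : ℝ) : ℂ) := by push_cast; ring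
  have hE : eulerL β ((m : ℂ) + ((1 + x : ℝ) : ℂ)) =
      twistedL β (1 : DirichletCharacter ℂ 1) ((m : ℂ) + ((1 + x : ℝ) : ℂ)) := by
    unfold eulerL twistedL
    refine tprod_congr fun p => Finset.prod_congr rfl fun j _ => ?_
    rw [MulChar.one_apply (isUnit_of_subsingleton _), one_mul]
  have hα : ∀ (p : Nat.Primes) (j : J),
      ‖(1 : DirichletCharacter ℂ 1) ((p : ℕ) : ZMod 1) * nrm m β S p j‖ ≤ 1 := fun p j => by
    rw [MulChar.one_apply (isUnit_of_subsingleton _), one_mul]; exact nrm_le hβ p j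
  have hQne := (eulerL_log hα hx1).1
  have hfun : (fun (p : Nat.Primes) (j : J) =>
      (1 : DirichletCharacter ℂ 1) ((p : ℕ) : ZMod 1) * nrm m β S p j) = nrm m β S := by
    funext p j
    rw [MulChar.one_apply (isUnit_of_subsingleton _), one_mul]
  rw [es] at h4
  rw [hE, twistedL_eq hβ _ hx1, norm_mul,
    Real.log_mul (norm_ne_zero_iff.mpr h4.1) (norm_ne_zero_iff.mpr hQne), hfun,
    add_sub_cancel_right]
  exact h4.2

/-- removing the bad factors over `K` -/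
lemma K_shift {m : ℕ} {β : Nat.Primes → J → ℂ} {S : Finset Nat.Primes}
    (hβ : ∀ p ∉ S, ∀ j, ‖β p j‖ ≤ ((p : ℕ) : ℝ) ^ m)
    {γ : HeightOneSpectrum (𝓞 K) → J → ℂ}
    (hγ : ∀ v, below v ∉ S → ∀ j, γ v j = β (below v) j ^ deg v)
    (hγS : ∀ v, below v ∈ S → ∀ j, γ v j * ((nm v : ℕ) : ℂ) ^ (-((m : ℂ) + 1)) ≠ 1) :
    Bdd (fun x : ℝ => Real.log ‖kL γ ((m : ℂ) + x)‖ -
      Real.log ‖kL (K := K) (fun v j => nrm m β S (below v) j ^ deg v) (x : ℂ)‖) := by
  apply Bdd.of_shift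
  obtain ⟨B1, hB1, hB1'⟩ := kBad_log (K := K) (γ := γ) (S := S) ((m : ℂ) + 1) hγS
  refine ⟨B1, ?_⟩
  filter_upwards [hB1', self_mem_nhdsWithin] with x h4 hx
  have hx0 : (0 : ℝ) < x := hx
  have hx1 : (1 : ℝ) < ((1 + x : ℝ) : ℂ).re := by
    rw [Complex.ofReal_re]; linarith
  have es : (m : ℂ) + 1 + x = (m : ℂ) + ((1 + x : ℝ) : ℂ) := by push_cast; ring
  have hγ1 : ∀ (v : HeightOneSpectrum (𝓞 K)) (j : J), ‖nrm m β S (below v) j ^ deg v‖ ≤ 1 :=
    fun v j => by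
      rw [norm_pow]
      exact pow_le_one₀ (norm_nonneg _) (nrm_le hβ _ _)
  have hKne := (kL_log hγ1 (x := 1 + x) (by linarith)).1
  rw [es] at h4
  rw [kL_eq hβ hγ hx1, norm_mul,
    Real.log_mul (norm_ne_zero_iff.mpr h4.1) (norm_ne_zero_iff.mpr hKne), add_sub_cancel_right]
  exact h4.2

end

/-- squares of functions that differ by a bounded function -/
lemma sq_le_of_bdd {F D : ℝ → ℝ} (h : Bdd (fun x => F x - D x)) {Y : ℝ}
    (hD : ∀ᶠ x : ℝ in 𝓝[>] 1, |D x| ≤ Y * Lam x) {c : ℝ} (hc : 0 < c) :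
    ∃ C : ℝ, ∀ᶠ x : ℝ in 𝓝[>] 1, F x ^ 2 / c ≤ D x ^ 2 / c + C * Lam x := by
  obtain ⟨E, hE⟩ := h
  refine ⟨(2 * |E| * |Y| + E ^ 2) / c, ?_⟩
  filter_upwards [hE, hD, Lam_one_le] with x h1 h2 h3
  have hkey : F x ^ 2 ≤ D x ^ 2 + (2 * |E| * |Y| + E ^ 2) * Lam x := by
    have e : F x ^ 2 = D x ^ 2 + 2 * ((F x - D x) * D x) + (F x - D x) ^ 2 := by ring
    have h4 : (F x - D x) * D x ≤ |E| * (|Y| * Lam x) := by
      refine (le_abs_self _).trans ?_
      rw [abs_mul]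
      refine mul_le_mul (h1.trans (le_abs_self E)) (h2.trans ?_) (abs_nonneg _) (abs_nonneg _)
      exact mul_le_mul_of_nonneg_right (le_abs_self Y) (by linarith)
    have h5 : (F x - D x) ^ 2 ≤ E ^ 2 := by
      rw [← sq_abs (F x - D x)]
      exact pow_le_pow_left₀ (abs_nonneg _) h1 2
    have h6 : E ^ 2 ≤ E ^ 2 * Lam x := le_mul_of_one_le_right (sq_nonneg _) h3
    rw [e]
    nlinarith
  calc F x ^ 2 / c ≤ (D x ^ 2 + (2 * |E| * |Y| + E ^ 2) * Lam x) / c :=
        div_le_div_of_nonneg_right hkey hc.le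
    _ = _ := by ring

/-- **Repulsion for base change.** -/
theorem kRepulsion {J : Type} [Fintype J] (m : ℕ) (β : Nat.Primes → J → ℂ)
    (S : Finset Nat.Primes)
    (hβ : ∀ p ∉ S, ∀ j, ‖β p j‖ ≤ ((p : ℕ) : ℝ) ^ m)
    (hβS : ∀ p ∈ S, ∀ j, β p j * ((p : ℕ) : ℂ) ^ (-((m : ℂ) + 1)) ≠ 1)
    {ι : Type} [Fintype ι] (K : ι → Type) [∀ i, Field (K i)] [∀ i, NumberField (K i)]
    (hn : ∀ i, 1 < Module.finrank ℚ (K i))
    (hd : ∀ i j, i ≠ j → IsField (K i ⊗[ℚ] K j))
    (γ : ∀ i, HeightOneSpectrum (𝓞 (K i)) → J → ℂ)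
    (hγ : ∀ i v, below v ∉ S → ∀ j, γ i v j = β (below v) j ^ deg v)
    (hγS : ∀ i v, below v ∈ S → ∀ j, γ i v j * ((nm v : ℕ) : ℂ) ^ (-((m : ℂ) + 1)) ≠ 1) :
    ∃ C : ℝ, ∀ᶠ x : ℝ in 𝓝[>] 0,
      Real.log ‖eulerL β ((m : ℂ) + 1 + x)‖ ^ 2 +
      ∑ i, (Real.log ‖kL (γ i) ((m : ℂ) + 1 + x)‖ - Real.log ‖eulerL β ((m : ℂ) + 1 + x)‖) ^ 2 /
        ((rk (K i) (K i) : ℝ) - 1) ≤
        Real.log (1 / x) * Real.log ‖selfL β S (2 * (m : ℂ) + 1 + x)‖ + C * Real.log (1 / x) := by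
  classical
  set α := nrm m β S with hαdef
  have hα : ∀ p j, ‖α p j‖ ≤ 1 := nrm_le hβ
  set T : ℝ := (Fintype.card J : ℝ) with hT
  set a : Nat.Primes → ℝ := fun p => (∑ j, α p j).re with ha
  have haT : ∀ p, |a p| ≤ T := fun p => (Complex.abs_re_le_norm _).trans (sum_norm_le hα p)
  have hT0 : 0 ≤ T := by positivity
  set u : Option ι → Nat.Primes → ℝ := fun o p => match o with
    | none => 1
    | some i => (R (K i) p : ℝ) - 1 with hu
  set B : Option ι → ℝ := fun o => match o with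
    | none => 1
    | some i => (Module.finrank ℚ (K i) : ℝ) + 1 with hB
  set c : Option ι → ℝ := fun o => match o with
    | none => 1
    | some i => (rk (K i) (K i) : ℝ) - 1 with hc
  have hB0 : ∀ o, 0 ≤ B o := by
    rintro (_ | i) <;> simp only [hB] <;> positivity
  have huB : ∀ o p, |u o p| ≤ B o := by
    rintro (_ | i) p
    · simp [hu, hB]
    · simp only [hu, hB]
      exact (abs_sub _ _).trans (by rw [abs_one]; exact add_le_add (R_abs p) le_rfl)
  have hc0 : ∀ o, 0 < c o := by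
    rintro (_ | i)
    · simp [hc]
    · simp only [hc]
      have := two_le_rk (K i) (hn i)
      have : (2 : ℝ) ≤ (rk (K i) (K i) : ℝ) := by exact_mod_cast this
      linarith
  have hG0 : ∀ o, Bdd (fun x => ∑' p, (u o p * u o p) * w x p - c o * Lam x) := by
    rintro (_ | i)
    · simp only [hu, hc, one_mul]
      exact W_sub_Lam_bdd
    · exact gram_bdd
  have hG1 : ∀ o o', o ≠ o' → Bdd (fun x => ∑' p, (u o p * u o' p) * w x p) := by
    rintro (_ | i) (_ | i') h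
    · exact absurd rfl h
    · simp only [hu, one_mul]
      exact sum_R_bdd
    · simp only [hu, mul_one]
      exact sum_R_bdd
    · have hne : i ≠ i' := fun h' => h (by rw [h'])
      have h1 := gram_bdd (K := K i) (L := K i')
      rw [rk_eq_one (hd i i' hne)] at h1
      simpa [hu] using h1
  obtain ⟨C1, hC1⟩ := bessel2 a T haT u B huB c hc0 hG0 hG1
  -- the functions
  set F : Option ι → ℝ → ℝ := fun o x => match o with
    | none => Real.log ‖eulerL β ((m : ℂ) + x)‖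
    | some i => Real.log ‖kL (γ i) ((m : ℂ) + x)‖ - Real.log ‖eulerL β ((m : ℂ) + x)‖ with hF
  set D : Option ι → ℝ → ℝ := fun o x => ∑' p, (a p * u o p) * w x p with hD
  have hFD : ∀ o, Bdd (fun x => F o x - D o x) := by
    rintro (_ | i)
    · refine ((Q_shift hβ hβS).add (Q_sum hα)).congr fun x _ => ?_
      simp only [hF, hD, hu, ha]
      ring
    · refine (((K_shift hβ (hγ i) (hγS i)).sub (Q_shift hβ hβS)).add
        (K_sub_Q_sum (K := K i) hα)).congr fun x _ => ?_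
      simp only [hF, hD, hu, ha]
      ring
  obtain ⟨C2, hC2⟩ := W_sub_Lam_bdd
  have hDle : ∀ o, ∀ᶠ x : ℝ in 𝓝[>] 1, |D o x| ≤ (T * B o * (1 + |C2|)) * Lam x := by
    intro o
    filter_upwards [hC2, Lam_one_le, self_mem_nhdsWithin] with x h2 hΛ1 hx1
    have hx : 1 < x := hx1
    have hWΛ : W x ≤ (1 + |C2|) * Lam x := by
      have h3 := (abs_le.mp h2).2
      have h4 := le_abs_self C2
      have h5 : |C2| ≤ |C2| * Lam x := le_mul_of_one_le_right (abs_nonneg _) hΛ1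
      linarith
    have := tsum_of_norm_bounded (f := fun p => (a p * u o p) * w x p)
      ((w_summable hx).mul_left (T * B o)).hasSum (fun p => by
        rw [norm_mul, Real.norm_eq_abs, Real.norm_eq_abs, abs_of_nonneg (w_nonneg x p)]
        refine mul_le_mul_of_nonneg_right ?_ (w_nonneg x p)
        rw [abs_mul]
        exact mul_le_mul (haT p) (huB o p) (abs_nonneg _) hT0)
    rw [Real.norm_eq_abs, tsum_mul_left] at this
    refine this.trans ?_
    have h6 := mul_le_mul_of_nonneg_left hWΛ (mul_nonneg hT0 (hB0 o))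
    calc T * B o * W x ≤ T * B o * ((1 + |C2|) * Lam x) := h6
      _ = _ := by ring
  have hsq := fun o => sq_le_of_bdd (hFD o) (hDle o) (hc0 o)
  choose C3 hC3 using hsq
  have hC3all : ∀ᶠ x : ℝ in 𝓝[>] 1, ∀ o, F o x ^ 2 / c o ≤ D o x ^ 2 / c o + C3 o * Lam x :=
    eventually_all.mpr hC3
  refine ⟨C1 + T ^ 2 * 0 + (∑ o, C3 o) + Fintype.card J ^ 2 * C0, ?_⟩
  filter_upwards [tendsto_one_add.eventually hC1, tendsto_one_add.eventually hC3all,
    tendsto_one_add.eventually Lam_one_le, self_mem_nhdsWithin] with x h1 h3 hΛ1 hx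
  have hx0 : (0 : ℝ) < x := hx
  have hx1 : 1 < 1 + x := by linarith
  have hLam : Lam (1 + x) = Real.log (1 / x) := by unfold Lam; rw [add_sub_cancel_left]
  rw [← hLam]
  have es : (m : ℂ) + 1 + x = (m : ℂ) + ((1 + x : ℝ) : ℂ) := by push_cast; ring
  rw [es]
  have hlhs : Real.log ‖eulerL β ((m : ℂ) + ((1 + x : ℝ) : ℂ))‖ ^ 2 +
      ∑ i, (Real.log ‖kL (γ i) ((m : ℂ) + ((1 + x : ℝ) : ℂ))‖ -
        Real.log ‖eulerL β ((m : ℂ) + ((1 + x : ℝ) : ℂ))‖) ^ 2 /
        ((rk (K i) (K i) : ℝ) - 1) = ∑ o, F o (1 + x) ^ 2 / c o := by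
    rw [Fintype.sum_option]
    simp only [hF, hc, div_one]
  rw [hlhs]
  -- self product
  have h6 := (self_log (nrm_le (m := m) (S := S) hβ) hx1).2
  have h7 : selfL β S (2 * (m : ℂ) + 1 + x) =
      eulerL (fun p (jk : J × J) => nrm m β S p jk.1 * (starRingEnd ℂ) (nrm m β S p jk.2))
        ((1 + x : ℝ) : ℂ) := by
    rw [← selfL_eq (m := m)]
    congr 1
    push_cast
    ring
  rw [h7]
  set σ : ℝ := Real.log ‖eulerL (fun p (jk : J × J) =>
    nrm m β S p jk.1 * (starRingEnd ℂ) (nrm m β S p jk.2)) ((1 + x : ℝ) : ℂ)‖ with hσ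
  have h8 := (abs_le.mp h6).1
  have hA : ∑' p, a p ^ 2 * w (1 + x) p ≤ ∑' p, ‖∑ j, α p j‖ ^ 2 * w (1 + x) p := by
    refine Summable.tsum_le_tsum (fun p => ?_) ?_ ?_
    · refine mul_le_mul_of_nonneg_right ?_ (w_nonneg _ _)
      rw [← sq_abs (a p)]
      exact pow_le_pow_left₀ (abs_nonneg _) (Complex.abs_re_le_norm _) 2
    · exact bddmul_summable hx1 (C := T ^ 2) fun p => by
        rw [abs_pow]; exact pow_le_pow_left₀ (abs_nonneg _) (haT p) 2
    · exact bddmul_summable hx1 (C := T ^ 2) fun p => by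
        rw [abs_of_nonneg (by positivity)]
        exact pow_le_pow_left₀ (norm_nonneg _) (sum_norm_le hα p) 2
  have h9 : ∑' p, a p ^ 2 * w (1 + x) p ≤ σ + Fintype.card J ^ 2 * C0 := by
    refine hA.trans ?_
    linarith
  have h10 : ∑ o, F o (1 + x) ^ 2 / c o ≤
      ∑ o, D o (1 + x) ^ 2 / c o + (∑ o, C3 o) * Lam (1 + x) := by
    rw [Finset.sum_mul, ← Finset.sum_add_distrib]
    exact Finset.sum_le_sum fun o _ => h3 o
  have h11 := mul_le_mul_of_nonneg_left h9 (show 0 ≤ Lam (1 + x) by linarith)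
  have h12 : ∑ o, D o (1 + x) ^ 2 / c o ≤ Lam (1 + x) * (∑' p, a p ^ 2 * w (1 + x) p) +
      C1 * Lam (1 + x) := h1
  nlinarith

end Pool.Agent.H921R2.TatePole
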